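import Mathlib

/-!
Relations between weights on a finite set with a fixed-point-free involution, under a transitive
group, when the number of pairs is a prime power.
-/

namespace Pool.Agent.H83.TateSylow

open MulAction

set_option linter.unusedSectionVars false

variable {G R : Type*} [Group G] [Finite G] [MulAction G R] [Fintype R] [DecidableEq R]

/-- Orbits of a Sylow subgroup have size divisible by the full power of the prime dividing the
number of points. -/
theorem sylow_orbit_dvd [IsPretransitive G R] (p : ℕ) [Fact p.Prime] {n : ℕ}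
    (hcard : p ^ n ∣ Nat.card R) (P : Sylow p G) (x : R) : p ^ n ∣ (orbit P x).ncard := by
  classical
  set H : Subgroup G := stabilizer G x with hH
  have hidx : H.index = Nat.card R := by
    rw [hH, index_stabilizer, orbit_eq_univ, Set.ncard_univ]
  have h1 : (H ⊓ (P : Subgroup G)).index = (H ⊓ (P : Subgroup G)).relIndex H * H.index :=
    (Subgroup.relIndex_mul_index inf_le_left).symm
  have h2 : (H ⊓ (P : Subgroup G)).index
      = (H ⊓ (P : Subgroup G)).relIndex P * (P : Subgroup G).index :=
    (Subgroup.relIndex_mul_index inf_le_right).symm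
  have h3 : p ^ n ∣ (H ⊓ (P : Subgroup G)).relIndex P * (P : Subgroup G).index := by
    rw [← h2, h1, hidx]; exact Dvd.dvd.mul_left hcard _
  have hcop : Nat.Coprime (p ^ n) (P : Subgroup G).index := by
    apply Nat.Coprime.pow_left
    rw [Nat.Prime.coprime_iff_not_dvd (Fact.out : p.Prime)]
    exact P.not_dvd_index
  have h4 : p ^ n ∣ (H ⊓ (P : Subgroup G)).relIndex P := hcop.dvd_of_dvd_mul_right h3
  have h5 : (H ⊓ (P : Subgroup G)).relIndex P = (stabilizer P x).index := by
    rw [Subgroup.inf_relIndex_right]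
    rfl
  rw [h5, index_stabilizer] at h4
  exact h4

/-- A finite set stable under a fixed-point-free involution has an even number of elements. -/
theorem even_card_of_stable {X : Type*} [DecidableEq X] (t : X → X) (h1 : ∀ x, t (t x) = x)
    (h2 : ∀ x, t x ≠ x) (U : Finset X) (hU : ∀ x ∈ U, t x ∈ U) : Even U.card := by
  have h : ∑ _x ∈ U, (1 : ZMod 2) = 0 := by
    apply Finset.sum_involution (fun a _ => t a)
    · intro a _; decide
    · intro a _ _; exact h2 a
    · intro a ha; exact hU a ha
    · intro a _; exact h1 a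
  rw [Finset.sum_const, nsmul_eq_mul, mul_one] at h
  exact ZMod.natCast_eq_zero_iff_even.1 h

/-- If the number of pairs is a power of `p`, a Sylow `p`-subgroup is transitive on pairs. -/
theorem sylow_pm_transitive [IsPretransitive G R] (t : R → R) (h1 : ∀ x, t (t x) = x)
    (h2 : ∀ x, t x ≠ x) (ht : ∀ (g : G) x, t (g • x) = g • t x)
    (p : ℕ) [hp : Fact p.Prime] {n : ℕ} (hcard : Nat.card R = 2 * p ^ n) (P : Sylow p G)
    (x y : R) : ∃ g ∈ P, g • x = y ∨ g • x = t y := by
  classical
  by_cases hp2 : p = 2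
  · subst hp2
    have hc : Nat.card R = 2 ^ (n + 1) := by rw [hcard, pow_succ, mul_comm]
    have h4 := sylow_orbit_dvd 2 (n := n + 1) (by rw [hc]) P x
    have h6 : (orbit P x).ncard = 2 ^ (n + 1) := by
      apply le_antisymm
      · rw [← hc, ← Set.ncard_univ]
        exact Set.ncard_le_ncard (Set.subset_univ _) (Set.toFinite _)
      · apply Nat.le_of_dvd _ h4
        rw [Set.ncard_pos (Set.toFinite _)]
        exact ⟨x, mem_orbit_self x⟩
    have h7 : orbit P x = Set.univ := by
      apply Set.eq_of_subset_of_ncard_le (Set.subset_univ _) _ (Set.toFinite _)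
      rw [Set.ncard_univ, hc, h6]
    have h8 : y ∈ orbit P x := by rw [h7]; trivial
    obtain ⟨g, hg⟩ := h8
    exact ⟨g, g.2, Or.inl hg⟩
  · set O : Finset R := (orbit P x).toFinset with hO
    have hmem : ∀ z, z ∈ O ↔ ∃ g ∈ P, g • x = z := by
      intro z
      rw [hO, Set.mem_toFinset]
      constructor
      · rintro ⟨g, hg⟩; exact ⟨g, g.2, hg⟩
      · rintro ⟨g, hg, hgz⟩; exact ⟨⟨g, hg⟩, hgz⟩
    have hOcard : O.card = (orbit P x).ncard := by
      rw [hO, Set.ncard_eq_toFinset_card']
    have hdvd : p ^ n ∣ O.card := by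
      rw [hOcard]
      exact sylow_orbit_dvd p (by rw [hcard]; exact dvd_mul_left _ _) P x
    have hpos : 0 < O.card := Finset.card_pos.2 ⟨x, (hmem x).2 ⟨1, one_mem _, one_smul _ _⟩⟩
    have hodd : Odd O.card := by
      have hpow : ∃ k, O.card = p ^ k := by
        rw [hOcard]
        obtain ⟨k, hk⟩ := P.isPGroup'.card_orbit x
        refine ⟨k, ?_⟩
        rw [← hk]; rfl
      obtain ⟨k, hk⟩ := hpow
      rw [hk]
      exact (hp.out.odd_of_ne_two hp2).pow
    -- the orbit meets its conjugate trivially
    have hdisj : ∀ z ∈ O, t z ∉ O := by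
      intro z hz htz
      have hst : ∀ w ∈ O, t w ∈ O := by
        intro w hw
        obtain ⟨g, hg, rfl⟩ := (hmem z).1 hz
        obtain ⟨k, hk, rfl⟩ := (hmem w).1 hw
        obtain ⟨l, hl, hlz⟩ := (hmem _).1 htz
        rw [hmem]
        refine ⟨k * g⁻¹ * l, mul_mem (mul_mem hk (inv_mem hg)) hl, ?_⟩
        rw [mul_smul, hlz, ht, ← mul_smul, mul_assoc, inv_mul_cancel, mul_one, ht]
      have := even_card_of_stable t h1 h2 O hst
      rw [← Nat.not_odd_iff_even] at this
      exact this hodd
    have hunion : (O ∪ O.image t) = Finset.univ := by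
      apply Finset.eq_univ_of_card
      rw [Finset.card_union_of_disjoint, Finset.card_image_of_injective]
      · rw [← Nat.card_eq_fintype_card, hcard]
        have hle : p ^ n ≤ O.card := Nat.le_of_dvd hpos hdvd
        have hub : O.card + O.card ≤ 2 * p ^ n := by
          rw [← hcard, Nat.card_eq_fintype_card]
          calc O.card + O.card = (O ∪ O.image t).card := by
                rw [Finset.card_union_of_disjoint, Finset.card_image_of_injective]
                · intro a b hab
                  have := congrArg t hab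
                  rwa [h1, h1] at this
                · rw [Finset.disjoint_left]
                  intro a ha ha'
                  obtain ⟨b, hb, rfl⟩ := Finset.mem_image.1 ha'
                  exact hdisj b hb ha
            _ ≤ Fintype.card R := Finset.card_le_univ _
        omega
      · intro a b hab
        have := congrArg t hab
        rwa [h1, h1] at this
      · rw [Finset.disjoint_left]
        intro a ha ha'
        obtain ⟨b, hb, rfl⟩ := Finset.mem_image.1 ha'
        exact hdisj b hb ha
    have hy : y ∈ O ∪ O.image t := by rw [hunion]; exact Finset.mem_univ _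
    rw [Finset.mem_union, Finset.mem_image] at hy
    rcases hy with hy | ⟨z, hz, rfl⟩
    · obtain ⟨g, hg, hgy⟩ := (hmem y).1 hy
      exact ⟨g, hg, Or.inl hgy⟩
    · obtain ⟨g, hg, hgy⟩ := (hmem z).1 hz
      exact ⟨g, hg, Or.inr (by rw [hgy, h1])⟩

/-- A half-system: exactly one element of each pair `{x, t x}`. -/
def IsHalf (t : R → R) (H : Finset R) : Prop := ∀ x, x ∈ H ↔ t x ∉ H

section Half

variable (t : R → R) (h1 : ∀ x, t (t x) = x)

include h1

theorem sum_half_eq {B : Type*} [AddCommMonoid B] (f : R → B)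
    (hf : ∀ x, f (t x) = f x) {H K : Finset R} (hH : IsHalf t H) (hK : IsHalf t K) :
    ∑ x ∈ H, f x = ∑ x ∈ K, f x := by
  rw [← Finset.sum_inter_add_sum_sdiff H K, ← Finset.sum_inter_add_sum_sdiff K H,
    Finset.inter_comm K H]
  congr 1
  apply Finset.sum_bij (fun x _ => t x)
  · intro x hx
    rw [Finset.mem_sdiff] at hx ⊢
    have a := hH x
    have b := hK x
    tauto
  · intro x _ y _ hxy
    have := congrArg t hxy
    rwa [h1, h1] at this
  · intro y hy
    refine ⟨t y, ?_, h1 y⟩
    rw [Finset.mem_sdiff] at hy ⊢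
    have a := hH y
    have b := hK y
    tauto
  · intro x _; exact (hf x).symm

theorem sum_univ_eq {B : Type*} [AddCommMonoid B] (f : R → B)
    (hf : ∀ x, f (t x) = f x) {H : Finset R} (hH : IsHalf t H) :
    ∑ x, f x = ∑ x ∈ H, f x + ∑ x ∈ H, f x := by
  have hHc : IsHalf t Hᶜ := by
    intro x
    have a := hH x
    simp only [Finset.mem_compl]
    tauto
  rw [← Finset.sum_add_sum_compl H, sum_half_eq t h1 f hf hHc hH]

theorem exists_half (h2 : ∀ x, t x ≠ x) : ∃ H : Finset R, IsHalf t H := by
  classical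
  let e := Fintype.equivFin R
  refine ⟨Finset.univ.filter (fun x => e x < e (t x)), fun x => ?_⟩
  simp only [Finset.mem_filter, Finset.mem_univ, true_and, h1, not_lt]
  have : e x ≠ e (t x) := fun h => h2 x (e.injective h).symm
  constructor
  · intro h; exact h.le
  · intro h; exact lt_of_le_of_ne h this

end Half

/-- The module of relations modulo `p`. -/
def relMod (p : ℕ) (t : R → R) (u : R → ℤ) (H : Finset R) (G : Type*) [Group G] [MulAction G R] :
    AddSubgroup (R → ZMod p) where
  carrier := {f | (∀ x, f (t x) = - f x) ∧ ∀ g : G, ∑ x ∈ H, f x * (u (g • x) : ZMod p) = 0}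
  add_mem' := by
    rintro f f' ⟨ha, hb⟩ ⟨ha', hb'⟩
    refine ⟨fun x => by simp [ha, ha', add_comm], fun g => ?_⟩
    simp only [Pi.add_apply, add_mul, Finset.sum_add_distrib, hb g, hb' g, add_zero]
  zero_mem' := ⟨fun x => by simp, fun g => by simp⟩
  neg_mem' := by
    rintro f ⟨ha, hb⟩
    refine ⟨fun x => by simp [ha], fun g => ?_⟩
    simp only [Pi.neg_apply, neg_mul, Finset.sum_neg_distrib, hb g, neg_zero]

/-- The main step: no nonzero relation modulo `p`. -/
theorem relMod_eq_zero [IsPretransitive G R] (t : R → R) (h1 : ∀ x, t (t x) = x)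
    (h2 : ∀ x, t x ≠ x) (ht : ∀ (g : G) x, t (g • x) = g • t x)
    (p : ℕ) [hp : Fact p.Prime] {n : ℕ} (hcard : Nat.card R = 2 * p ^ n)
    (u : R → ℤ) (hu : ∀ x, u (t x) = - u x)
    (hhalf : ∀ H : Finset R, IsHalf t H → ¬ (p : ℤ) ∣ ∑ x ∈ H, u x)
    {H : Finset R} (hH : IsHalf t H) (f : R → ZMod p) (hf : f ∈ relMod p t u H G) : f = 0 := by
  classical
  by_contra hne
  obtain ⟨P⟩ : Nonempty (Sylow p G) := inferInstance
  have hsm : ∀ (g : G) (f : R → ZMod p), f ∈ relMod p t u H G →
      (fun x => f (g⁻¹ • x)) ∈ relMod p t u H G := by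
    intro g f hf
    refine ⟨fun x => ?_, fun k => ?_⟩
    · change f (g⁻¹ • t x) = - f (g⁻¹ • x)
      rw [← ht]; exact hf.1 _
    · have hev : ∀ x, f (t x) * (u ((k * g) • t x) : ZMod p) = f x * (u ((k * g) • x) : ZMod p) := by
        intro x
        rw [hf.1, ← ht, hu]; push_cast; ring
      have hK : IsHalf t (H.image (fun x => g⁻¹ • x)) := by
        intro x
        have hm : ∀ y, y ∈ H.image (fun x => g⁻¹ • x) ↔ g • y ∈ H := by
          intro y
          rw [Finset.mem_image]
          constructor
          · rintro ⟨z, hz, rfl⟩; rwa [smul_inv_smul]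
          · intro hy; exact ⟨_, hy, inv_smul_smul _ _⟩
        rw [hm, hm, ← ht]; exact hH _
      have e1 := sum_half_eq t h1 (fun x => f x * (u ((k * g) • x) : ZMod p)) hev hH hK
      rw [Finset.sum_image (fun a _ b _ hab => smul_left_cancel _ hab)] at e1
      rw [hf.2 (k * g)] at e1
      rw [e1]
      refine Finset.sum_congr rfl fun x _ => ?_
      rw [mul_smul, smul_inv_smul]
  let actP : MulAction P (relMod p t u H G) :=
    { smul := fun g f => ⟨fun x => (f : R → ZMod p) ((g : G)⁻¹ • x), hsm _ _ f.2⟩
      one_smul := fun f => Subtype.ext (by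
        funext x
        change (f : R → ZMod p) (((1 : P) : G)⁻¹ • x) = (f : R → ZMod p) x
        simp)
      mul_smul := fun g k f => Subtype.ext (by
        funext x
        change (f : R → ZMod p) (((g * k : P) : G)⁻¹ • x)
          = (f : R → ZMod p) ((k : G)⁻¹ • ((g : G)⁻¹ • x))
        rw [Subgroup.coe_mul, mul_inv_rev, mul_smul]) }
  have hfp := P.isPGroup'.card_modEq_card_fixedPoints (relMod p t u H G)
  have hdvd : p ∣ Nat.card (relMod p t u H G) := by
    have hne' : (⟨f, hf⟩ : relMod p t u H G) ≠ 0 := fun h => hne (congrArg Subtype.val h)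
    have hz : p • (⟨f, hf⟩ : relMod p t u H G) = 0 := by
      apply Subtype.ext
      funext x
      change (p • f) x = 0
      simp
    have hord : addOrderOf (⟨f, hf⟩ : relMod p t u H G) = p := addOrderOf_eq_prime hz hne'
    have hd := addOrderOf_dvd_natCard (⟨f, hf⟩ : relMod p t u H G)
    rw [hord] at hd
    exact hd
  have hfdvd : p ∣ Nat.card (fixedPoints P (relMod p t u H G)) :=
    (Nat.modEq_zero_iff_dvd.1 (hfp.symm.trans (Nat.modEq_zero_iff_dvd.2 hdvd)))
  have hfix0 : (0 : relMod p t u H G) ∈ fixedPoints P (relMod p t u H G) := by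
    intro g
    apply Subtype.ext
    funext x
    rfl
  have hex : ∃ W : relMod p t u H G, W ∈ fixedPoints P (relMod p t u H G) ∧ W ≠ 0 := by
    by_contra hcon
    push Not at hcon
    have : Nat.card (fixedPoints P (relMod p t u H G)) = 1 := by
      rw [Nat.card_eq_one_iff_unique]
      refine ⟨⟨fun a b => ?_⟩, ⟨⟨_, hfix0⟩⟩⟩
      apply Subtype.ext
      rw [hcon _ a.2, hcon _ b.2]
    rw [this] at hfdvd
    exact hp.out.one_lt.ne' (Nat.dvd_one.1 hfdvd)
  obtain ⟨W, hW, hWne⟩ := hex
  set F : R → ZMod p := W.1 with hF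
  have hFt : ∀ x, F (t x) = - F x := W.2.1
  have hFfix : ∀ g ∈ P, ∀ x, F (g • x) = F x := by
    intro g hg x
    have h3 := hW ⟨g⁻¹, inv_mem hg⟩
    have h4 := congrFun (congrArg Subtype.val h3) x
    change F ((g⁻¹)⁻¹ • x) = F x at h4
    rwa [inv_inv] at h4
  obtain ⟨x0, hx0⟩ : ∃ x0, F x0 ≠ 0 := by
    by_contra hcon
    push Not at hcon
    exact hWne (Subtype.ext (funext hcon))
  have hpm : ∀ y, F y = F x0 ∨ F y = - F x0 := by
    intro y
    obtain ⟨g, hg, hgy | hgy⟩ := sylow_pm_transitive t h1 h2 ht p hcard P x0 y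
    · left; rw [← hgy, hFfix g hg]
    · right
      have : F (t y) = F x0 := by rw [← hgy, hFfix g hg]
      rw [hFt] at this
      rw [← this, neg_neg]
  let e := Fintype.equivFin R
  set K : Finset R := Finset.univ.filter (fun x => F x = F x0 ∧ (F (t x) = F x0 → e x < e (t x)))
    with hKdef
  have hK : IsHalf t K := by
    intro x
    have hex : e x ≠ e (t x) := fun h => h2 x (e.injective h).symm
    simp only [hKdef, Finset.mem_filter, Finset.mem_univ, true_and, h1]
    by_cases ha : F x = F x0
    · by_cases hb : F (t x) = F x0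
      · simp only [ha, hb, true_and, true_implies, not_lt]
        constructor
        · intro h; exact h.le
        · intro h; exact lt_of_le_of_ne h hex
      · simp [ha, hb]
    · have hb : F (t x) = F x0 := by
        rcases hpm x with h | h
        · exact absurd h ha
        · rw [hFt, h, neg_neg]
      simp [ha, hb]
  have hsum := W.2.2 (1 : G)
  have hev : ∀ x, F (t x) * (u ((1 : G) • t x) : ZMod p) = F x * (u ((1 : G) • x) : ZMod p) := by
    intro x
    rw [hFt, one_smul, one_smul, hu]; push_cast; ring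
  have e1 := sum_half_eq t h1 (fun x => F x * (u ((1 : G) • x) : ZMod p)) hev hH hK
  rw [hsum] at e1
  have e2 : ∑ x ∈ K, F x * (u ((1 : G) • x) : ZMod p) = F x0 * ((∑ x ∈ K, u x : ℤ) : ZMod p) := by
    push_cast
    rw [Finset.mul_sum]
    refine Finset.sum_congr rfl fun x hx => ?_
    rw [one_smul]
    rw [hKdef, Finset.mem_filter] at hx
    rw [hx.2.1]
  rw [e2] at e1
  rcases mul_eq_zero.1 e1.symm with h | h
  · exact hx0 h
  · exact hhalf K hK ((ZMod.intCast_zmod_eq_zero_iff_dvd _ p).1 h)

/-- The relation lemma: an odd integral relation vanishes. -/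
theorem relation_eq_zero [IsPretransitive G R] (t : R → R) (h1 : ∀ x, t (t x) = x)
    (h2 : ∀ x, t x ≠ x) (ht : ∀ (g : G) x, t (g • x) = g • t x)
    (p : ℕ) [hp : Fact p.Prime] {n : ℕ} (hcard : Nat.card R = 2 * p ^ n)
    (u : R → ℤ) (hu : ∀ x, u (t x) = - u x)
    (hhalf : ∀ H : Finset R, IsHalf t H → ¬ (p : ℤ) ∣ ∑ x ∈ H, u x)
    (m : R → ℤ) (hm : ∀ x, m (t x) = - m x) (hrel : ∀ g : G, ∑ x, m x * u (g • x) = 0) (x : R) :
    m x = 0 := by
  obtain ⟨H, hH⟩ := exists_half t h1 h2
  have step : ∀ m : R → ℤ, (∀ x, m (t x) = - m x) →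
      (∀ g : G, ∑ x, m x * u (g • x) = 0) → ∀ x, (p : ℤ) ∣ m x := by
    intro m hm hrel x
    have hmem : (fun x => (m x : ZMod p)) ∈ relMod p t u H G := by
      refine ⟨fun x => by
        change ((m (t x) : ℤ) : ZMod p) = - ((m x : ℤ) : ZMod p)
        rw [hm]; push_cast; rfl, fun g => ?_⟩
      have e := sum_univ_eq t h1 (fun x => m x * u (g • x)) (fun x => by
        rw [hm, ← ht, hu]; ring) hH
      rw [hrel g] at e
      have e' : ∑ x ∈ H, m x * u (g • x) = 0 := by omega
      have := congrArg (Int.cast : ℤ → ZMod p) e'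
      push_cast at this
      exact this
    have := relMod_eq_zero (G := G) t h1 h2 ht p hcard u hu hhalf hH _ hmem
    have := congrFun this x
    exact (ZMod.intCast_zmod_eq_zero_iff_dvd _ p).1 this
  have key : ∀ k : ℕ, ∀ m : R → ℤ, (∀ x, m (t x) = - m x) →
      (∀ g : G, ∑ x, m x * u (g • x) = 0) → ∀ x, (p : ℤ) ^ k ∣ m x := by
    intro k
    induction k with
    | zero => intro m _ _ x; simp
    | succ k ih =>
      intro m hm hrel x
      have hdvd := step m hm hrel
      choose c hc using hdvd
      have hp0 : (p : ℤ) ≠ 0 := by exact_mod_cast hp.out.ne_zero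
      have := ih c (fun y => by
        apply mul_left_cancel₀ hp0
        rw [← hc, hm, hc y]; ring) (fun g => by
        have h := hrel g
        have e : ∑ x, m x * u (g • x) = p * ∑ x, c x * u (g • x) := by
          rw [Finset.mul_sum]
          refine Finset.sum_congr rfl fun y _ => ?_
          rw [hc y]; ring
        rw [e] at h
        exact (mul_eq_zero.1 h).resolve_left hp0) x
      rw [hc x, pow_succ, mul_comm]
      exact mul_dvd_mul_left _ this
  by_contra hne
  have h3 := key (m x).natAbs m hm hrel x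
  have h4 := Int.le_of_dvd (abs_pos.2 hne) ((dvd_abs _ _).2 h3)
  have h5 : ((m x).natAbs : ℤ) = |m x| := Int.natCast_natAbs _
  have h6 : (m x).natAbs < p ^ (m x).natAbs := Nat.lt_pow_self hp.out.one_lt
  have h7 : ((m x).natAbs : ℤ) < (p : ℤ) ^ (m x).natAbs := by exact_mod_cast h6
  omega

/-- A list with vanishing weight sums contains each point as often as its conjugate. -/
theorem count_eq (t : R → R) (h1 : ∀ x, t (t x) = x)
    (ht : ∀ (g : G) x, t (g • x) = g • t x)
    (u : R → ℤ) (hu : ∀ x, u (t x) = - u x)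
    (hrz : ∀ m : R → ℤ, (∀ x, m (t x) = - m x) → (∀ g : G, ∑ x, m x * u (g • x) = 0) →
      ∀ x, m x = 0)
    (l : List R) (hl : ∀ g : G, (l.map (fun x => u (g • x))).sum = 0) (x : R) :
    l.count (t x) = l.count x := by
  classical
  have hsum : ∀ g : G, ∑ x, (l.count x : ℤ) * u (g • x) = 0 := by
    intro g
    rw [← hl g, Finset.sum_list_map_count]
    symm
    have : ∀ y, (l.count y) • u (g • y) = (l.count y : ℤ) * u (g • y) := fun y => by simp
    simp_rw [this]
    apply Finset.sum_subset (Finset.subset_univ _)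
    intro y _ hy
    rw [List.mem_toFinset] at hy
    rw [List.count_eq_zero_of_not_mem hy]; simp
  have h := hrz (fun y => (l.count y : ℤ) - l.count (t y)) (fun y => by rw [h1]; ring)
    (fun g => by
      simp_rw [sub_mul]
      rw [Finset.sum_sub_distrib, hsum g]
      have e : ∑ y, (l.count (t y) : ℤ) * u (g • y) = ∑ y, (l.count y : ℤ) * u (g • t y) := by
        let e : R ≃ R := ⟨t, t, h1, h1⟩
        rw [← Equiv.sum_comp e]
        refine Finset.sum_congr rfl fun y _ => ?_
        simp only [e, Equiv.coe_fn_mk]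
        rw [h1]
      rw [e]
      have e' : ∑ y, (l.count y : ℤ) * u (g • t y) = - ∑ y, (l.count y : ℤ) * u (g • y) := by
        rw [← Finset.sum_neg_distrib]
        refine Finset.sum_congr rfl fun y _ => ?_
        rw [← ht, hu]; ring
      rw [e', hsum g]; simp) x
  omega

/-- The conjugate of a member of a list with vanishing weight sums is a member. -/
theorem mem_of_sum_zero (t : R → R) (h1 : ∀ x, t (t x) = x)
    (ht : ∀ (g : G) x, t (g • x) = g • t x)
    (u : R → ℤ) (hu : ∀ x, u (t x) = - u x)
    (hrz : ∀ m : R → ℤ, (∀ x, m (t x) = - m x) → (∀ g : G, ∑ x, m x * u (g • x) = 0) →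
      ∀ x, m x = 0)
    (l : List R) (hl : ∀ g : G, (l.map (fun x => u (g • x))).sum = 0) {x : R} (hx : x ∈ l) :
    t x ∈ l := by
  have h := count_eq (G := G) t h1 ht u hu hrz l hl x
  by_contra hnot
  rw [List.count_eq_zero_of_not_mem hnot] at h
  exact (List.count_pos_iff.2 hx).ne h

end Pool.Agent.H83.TateSylow
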