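import Mathlib
import Pool.Agent.H83.TateSylow

/-!
Multiplicative relations between the roots of an irreducible rational polynomial all of whose
complex roots have the same absolute value: when the number of conjugate pairs is a prime power and
the weights of the roots satisfy a condition modulo the prime, only the trivial relations exist.
-/

namespace Pool.Agent.H83.TateGal

open Polynomial Pool.Agent.H83.TateSylow

set_option linter.unusedSectionVars false

section

variable {K : Type*} [Field K] [Algebra ℚ K] [FiniteDimensional ℚ K] [Normal ℚ K]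

/-- The roots of `h` in `K`. -/
abbrev Rt (K : Type*) [Field K] [Algebra ℚ K] (h : ℚ[X]) : Type _ := {x : K // aeval x h = 0}

instance instAct (h : ℚ[X]) : MulAction (K ≃ₐ[ℚ] K) (Rt K h) where
  smul g x := ⟨g x.1, by
    have := aeval_algHom_apply (g : K →ₐ[ℚ] K) x.1 h
    rw [x.2, map_zero] at this
    exact this⟩
  one_smul x := rfl
  mul_smul g k x := rfl

theorem smul_val (h : ℚ[X]) (g : K ≃ₐ[ℚ] K) (x : Rt K h) : ((g • x : Rt K h) : K) = g x.1 := rfl

theorem rt_finite (h : ℚ[X]) (hh : h ≠ 0) : Finite (Rt K h) := by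
  have : {x : K | aeval x h = 0} = h.rootSet K := by
    ext x
    rw [mem_rootSet]
    simp [hh]
  have hf : ({x : K | aeval x h = 0}).Finite := by
    rw [this]; exact rootSet_finite h K
  exact hf.to_subtype

theorem transitive (h : ℚ[X]) (hirr : Irreducible h) :
    MulAction.IsPretransitive (K ≃ₐ[ℚ] K) (Rt K h) := by
  constructor
  intro x y
  have hy : aeval y.1 (minpoly ℚ x.1) = 0 := by
    rw [← minpoly.eq_of_irreducible hirr x.2, map_mul, y.2, zero_mul]
  obtain ⟨σ, hσ⟩ := minpoly.exists_algEquiv_of_root (Algebra.IsAlgebraic.isAlgebraic x.1) hy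
  refine ⟨σ⁻¹, Subtype.ext ?_⟩
  rw [smul_val, ← hσ]
  exact σ.symm_apply_apply y.1

theorem card_rt (h : ℚ[X]) (hirr : Irreducible h)
    (hsp : (h.map (algebraMap ℚ K)).Splits) : Nat.card (Rt K h) = h.natDegree := by
  classical
  rw [← card_rootSet_eq_natDegree hirr.separable hsp]
  have : {x : K | aeval x h = 0} = h.rootSet K := by
    ext x
    rw [mem_rootSet]
    simp [hirr.ne_zero]
  rw [← Nat.card_eq_fintype_card, ← this]
  rfl

end

/-- The main pairing statement. -/
theorem pairing_aux {p : ℕ} [hp : Fact p.Prime] {n : ℕ} (h : ℚ[X]) (hirr : Irreducible h)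
    {K : Type*} [Field K] [Algebra ℚ K] [IsSplittingField ℚ K h]
    (hdeg : h.natDegree = 2 * p ^ n) (Q : ℚ) (hQ : ∀ z : ℂ, aeval z h = 0 → ‖z‖ ^ 2 = (Q : ℝ))
    {L : Type*} [Field L] [CharZero L] (hsplit : (h.map (algebraMap ℚ L)).Splits)
    (v : L → ℚ) (hv : ∀ x y, x ≠ 0 → y ≠ 0 → v (x * y) = v x + v y)
    (c : ℚ) (u : L → ℤ) (hu : ∀ a : L, aeval a h = 0 → (u a : ℚ) = c * (v (Q : L) - 2 * v a))
    (hne : ∀ a : L, aeval a h = 0 → a ^ 2 ≠ (Q : L))
    (hhalf : ∀ Φ : Finset L, (∀ a ∈ Φ, aeval a h = 0) →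
      (∀ a : L, aeval a h = 0 → (a ∈ Φ ↔ (Q : L) / a ∉ Φ)) → ¬ (p : ℤ) ∣ ∑ a ∈ Φ, u a)
    (Ω : Type*) [Field Ω] [CharZero Ω] {N : ℕ} (hN : 0 < N) :
    ∃ Pred : List Ω → Prop,
      (∀ l : List Ω, (∀ a ∈ l, aeval a h = 0) →
        ((l.map (fun a => a ^ N)).prod) ^ 2 = (Q : Ω) ^ (N * l.length) → Pred l) ∧
      (∀ (a : Ω) (l : List Ω), (∀ b ∈ a :: l, aeval b h = 0) → Pred (a :: l) →
        ∃ (b : Ω) (l1 l2 : List Ω), l = l1 ++ b :: l2 ∧ a * b = (Q : Ω) ∧ Pred (l1 ++ l2)) := by
  classical
  have hspK : (h.map (algebraMap ℚ K)).Splits := IsSplittingField.splits K h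
  have : Normal ℚ K := Normal.of_isSplittingField (F := ℚ) (E := K) h
  have : FiniteDimensional ℚ K := IsSplittingField.finiteDimensional K h
  have hfin : Finite (Rt K h) := rt_finite h hirr.ne_zero
  have : Fintype (Rt K h) := Fintype.ofFinite _
  have := transitive (K := K) h hirr
  have hcard : Nat.card (Rt K h) = 2 * p ^ n := by rw [card_rt h hirr hspK, hdeg]
  let fL : K →ₐ[ℚ] L := IsSplittingField.lift K h hsplit
  let fC : K →ₐ[ℚ] ℂ := IsSplittingField.lift K h (IsAlgClosed.splits _)
  let fO : K →ₐ[ℚ] AlgebraicClosure Ω := IsSplittingField.lift K h (IsAlgClosed.splits _)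
  have hrootC : ∀ x : K, aeval x h = 0 → aeval (fC x) h = 0 := fun x hx => by
    rw [aeval_algHom_apply, hx, map_zero]
  have hrootL : ∀ x : K, aeval x h = 0 → aeval (fL x) h = 0 := fun x hx => by
    rw [aeval_algHom_apply, hx, map_zero]
  -- nonzero constant
  have hdeg1 : 1 < h.natDegree := by
    rw [hdeg]
    have := Nat.one_le_pow n p hp.out.pos
    omega
  have hroot0 : ∀ x : K, aeval x h = 0 → x ≠ 0 := by
    rintro x hx rfl
    have h0 : h.coeff 0 = 0 := by
      have := hx
      rw [← coeff_zero_eq_aeval_zero'] at this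
      exact (map_eq_zero_iff _ (algebraMap ℚ K).injective).1 this
    have hX : X ∣ h := X_dvd_iff.2 h0
    obtain ⟨r, hr⟩ := hX
    rcases hirr.isUnit_or_isUnit hr with hu' | hu'
    · exact not_isUnit_X hu'
    · have : h.natDegree = 1 := by
        rw [hr, natDegree_mul X_ne_zero hu'.ne_zero, natDegree_X, natDegree_eq_zero_of_isUnit hu']
      omega
  have hcastL : ∀ q : ℚ, fL (q : K) = (q : L) := fun q => map_ratCast fL q
  have hcastC : ∀ q : ℚ, fC (q : K) = (q : ℂ) := fun q => map_ratCast fC q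
  -- a root exists, so Q is nonzero
  have hex : ∃ x : K, aeval x h = 0 := by
    have : 0 < Nat.card (Rt K h) := by
      rw [hcard]
      exact Nat.mul_pos two_pos (pow_pos hp.out.pos n)
    obtain ⟨x⟩ := (Nat.card_pos_iff.1 this).1
    exact ⟨x.1, x.2⟩
  have hQ0 : Q ≠ 0 := by
    rintro rfl
    obtain ⟨x, hx⟩ := hex
    have h1 := hQ (fC x) (hrootC x hx)
    have h2 : fC x ≠ 0 := (map_ne_zero fC).2 (hroot0 x hx)
    have h3 : 0 < ‖fC x‖ ^ 2 := by
      exact pow_pos (norm_pos_iff.2 h2) 2
    rw [h1] at h3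
    simp at h3
  -- the conjugation
  have hconj : ∀ x : K, aeval x h = 0 → aeval ((Q : K) / x) h = 0 := by
    intro x hx
    have h1 := hQ (fC x) (hrootC x hx)
    have h2 : fC ((Q : K) / x) = (starRingEnd ℂ) (fC x) := by
      rw [map_div₀, hcastC]
      have h3 : fC x ≠ 0 := (map_ne_zero fC).2 (hroot0 x hx)
      rw [div_eq_iff h3, mul_comm, Complex.mul_conj, Complex.normSq_eq_norm_sq]
      rw [h1]; simp
    have h3 : aeval (fC ((Q : K) / x)) h = 0 := by
      rw [h2]
      have h4 : aeval (fC x) (h.map (algebraMap ℚ ℝ)) = 0 := by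
        rw [aeval_map_algebraMap]; exact hrootC x hx
      have h5 := aeval_conj (h.map (algebraMap ℚ ℝ)) (fC x)
      rw [h4, map_zero, aeval_map_algebraMap] at h5
      exact h5
    rw [aeval_algHom_apply] at h3
    exact (map_eq_zero fC).1 h3
  let t : Rt K h → Rt K h := fun x => ⟨(Q : K) / x.1, hconj x.1 x.2⟩
  have hQK : (Q : K) ≠ 0 := by
    have : CharZero K := algebraRat.charZero K
    exact_mod_cast hQ0
  have h1 : ∀ x, t (t x) = x := by
    intro x
    apply Subtype.ext
    change (Q : K) / ((Q : K) / x.1) = x.1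
    exact div_div_cancel₀ hQK
  have h2 : ∀ x, t x ≠ x := by
    intro x hx
    have e := congrArg Subtype.val hx
    change (Q : K) / x.1 = x.1 at e
    have h0 := hroot0 x.1 x.2
    rw [div_eq_iff h0] at e
    apply hne (fL x.1) (hrootL _ x.2)
    rw [← hcastL, e, ← sq, map_pow]
  have ht : ∀ (g : K ≃ₐ[ℚ] K) x, t (g • x) = g • t x := by
    intro g x
    apply Subtype.ext
    change (Q : K) / g x.1 = g ((Q : K) / x.1)
    rw [map_div₀, map_ratCast]
  let w : Rt K h → ℤ := fun x => u (fL x.1)
  have hQL : (Q : L) ≠ 0 := by exact_mod_cast hQ0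
  have hrootL0 : ∀ x : K, aeval x h = 0 → fL x ≠ 0 := by
    intro x hx
    exact (map_ne_zero fL).2 (hroot0 x hx)
  have hw : ∀ x, w (t x) = - w x := by
    intro x
    have e1 := hu (fL (t x).1) (hrootL _ (t x).2)
    have e2 := hu (fL x.1) (hrootL _ x.2)
    have e3 : v (Q : L) = v (fL x.1) + v (fL (t x).1) := by
      rw [← hv _ _ (hrootL0 _ x.2) (hrootL0 _ (t x).2), ← map_mul, ← hcastL]
      congr 2
      change (Q : K) = x.1 * ((Q : K) / x.1)
      rw [mul_comm, div_mul_cancel₀ _ (hroot0 x.1 x.2)]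
    have e4 : ((w (t x) : ℤ) : ℚ) = ((- w x : ℤ) : ℚ) := by
      push_cast
      change ((u (fL (t x).1) : ℤ) : ℚ) = - ((u (fL x.1) : ℤ) : ℚ)
      rw [e1, e2, e3]; ring
    exact_mod_cast e4
  have hwhalf : ∀ H : Finset (Rt K h), IsHalf t H → ¬ (p : ℤ) ∣ ∑ x ∈ H, w x := by
    intro H hH
    have hinj : Function.Injective (fun x : Rt K h => fL x.1) := fun x y hxy =>
      Subtype.ext (fL.toRingHom.injective hxy)
    have himg : fL '' {x : K | aeval x h = 0} = {x : L | aeval x h = 0} := by
      have e1 : {x : K | aeval x h = 0} = h.rootSet K := by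
        ext x; rw [mem_rootSet]; simp [hirr.ne_zero]
      have e2 : {x : L | aeval x h = 0} = h.rootSet L := by
        ext x; rw [mem_rootSet]; simp [hirr.ne_zero]
      rw [e1, e2]; exact hspK.image_rootSet fL
    have := hhalf (H.image (fun x : Rt K h => fL x.1)) (by
      intro a ha
      obtain ⟨x, _, rfl⟩ := Finset.mem_image.1 ha
      exact hrootL _ x.2) (by
      intro a ha
      have ha' : a ∈ fL '' {x : K | aeval x h = 0} := by rw [himg]; exact ha
      obtain ⟨x, hx, rfl⟩ := ha'
      have hxr : aeval x h = 0 := hx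
      have m1 : ∀ y : Rt K h, fL y.1 ∈ H.image (fun x : Rt K h => fL x.1) ↔ y ∈ H := by
        intro y
        rw [Finset.mem_image]
        constructor
        · rintro ⟨z, hz, hzy⟩
          have : z = y := hinj hzy
          rwa [← this]
        · intro hy; exact ⟨y, hy, rfl⟩
      have e := hH ⟨x, hxr⟩
      rw [← m1, ← m1] at e
      have e' : fL (t ⟨x, hxr⟩).1 = (Q : L) / fL x := by
        change fL ((Q : K) / x) = _
        rw [map_div₀, hcastL]
      rw [e'] at e
      exact e)
    rw [Finset.sum_image (fun a _ b _ hab => hinj hab)] at this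
    exact this
  have hrz := relation_eq_zero (G := K ≃ₐ[ℚ] K) t h1 h2 ht p hcard w hw hwhalf
  let aO : Ω → AlgebraicClosure Ω := algebraMap Ω (AlgebraicClosure Ω)
  have haO : Function.Injective aO := (algebraMap Ω (AlgebraicClosure Ω)).injective
  have hcastO : ∀ q : ℚ, fO (q : K) = aO (q : Ω) := fun q => by
    change fO (q : K) = algebraMap Ω (AlgebraicClosure Ω) (q : Ω)
    rw [map_ratCast, map_ratCast]
  have himgO : ∀ a : Ω, aeval a h = 0 → ∃ x : Rt K h, fO x.1 = aO a := by
    intro a ha
    have e1 : {x : K | aeval x h = 0} = h.rootSet K := by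
      ext x; rw [mem_rootSet]; simp [hirr.ne_zero]
    have e3 : aO a ∈ h.rootSet (AlgebraicClosure Ω) := by
      rw [mem_rootSet]
      refine ⟨hirr.ne_zero, ?_⟩
      have := aeval_algebraMap_apply (AlgebraicClosure Ω) a h
      rw [ha, map_zero] at this
      exact this
    rw [← hspK.image_rootSet fO, ← e1] at e3
    obtain ⟨x, hx, hxa⟩ := e3
    exact ⟨⟨x, hx⟩, hxa⟩
  refine ⟨fun l => ∃ lK : List (Rt K h), l.map aO = lK.map (fun x => fO x.1) ∧
    ∀ g : K ≃ₐ[ℚ] K, (lK.map (fun x => w (g • x))).sum = 0, ?_, ?_⟩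
  · intro l hl hprod
    have hlift : ∃ lK : List (Rt K h), l.map aO = lK.map (fun x => fO x.1) := by
      clear hprod
      induction l with
      | nil => exact ⟨[], rfl⟩
      | cons a l ih =>
        obtain ⟨lK, hlK⟩ := ih (fun b hb => hl b (by simp [hb]))
        obtain ⟨x, hx⟩ := himgO a (hl a (by simp))
        exact ⟨x :: lK, by simp [hlK, hx]⟩
    obtain ⟨lK, hlK⟩ := hlift
    refine ⟨lK, hlK, fun g => ?_⟩
    have hlen : lK.length = l.length := by
      have := congrArg List.length hlK
      simpa using this.symm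
    -- the relation in K
    have hrelK : ((lK.map (fun x => x.1 ^ N)).prod) ^ 2 = (Q : K) ^ (N * lK.length) := by
      apply fO.toRingHom.injective
      change fO _ = fO _
      rw [map_pow, map_pow, hcastO, map_list_prod, List.map_map]
      have e1 : (lK.map (fun x => fO x.1)).map (fun y => y ^ N)
          = (l.map aO).map (fun y => y ^ N) := by rw [hlK]
      have e2 : lK.map (⇑fO ∘ fun x => x.1 ^ N) = (lK.map (fun x => fO x.1)).map (fun y => y ^ N) := by
        rw [List.map_map]
        apply List.map_congr_left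
        intro x _
        exact map_pow fO x.1 N
      have e3 : (l.map aO).map (fun y => y ^ N) = (l.map (fun a => a ^ N)).map aO := by
        rw [List.map_map, List.map_map]
        apply List.map_congr_left
        intro x _
        change (algebraMap Ω (AlgebraicClosure Ω) x) ^ N = algebraMap Ω (AlgebraicClosure Ω) (x ^ N)
        rw [map_pow]
      have e4 : ((l.map (fun a => a ^ N)).map aO).prod = aO ((l.map (fun a => a ^ N)).prod) := by
        change ((l.map (fun a => a ^ N)).map (algebraMap Ω (AlgebraicClosure Ω))).prod = _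
        rw [← map_list_prod]
      rw [e2, e1, e3, e4, hlen]
      have := congrArg aO hprod
      change (algebraMap Ω (AlgebraicClosure Ω)) _ = (algebraMap Ω (AlgebraicClosure Ω)) _ at this
      rw [map_pow, map_pow] at this
      exact this
    -- apply g and then v
    have hgrel : ((lK.map (fun x => (fL (g x.1)) ^ N)).prod) ^ 2 = (Q : L) ^ (N * lK.length) := by
      have := congrArg (fun y => fL (g y)) hrelK
      rw [map_pow, map_pow, map_pow, map_pow, map_ratCast, hcastL, map_list_prod, map_list_prod,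
        List.map_map, List.map_map] at this
      rw [← this]
      congr 2
      apply List.map_congr_left
      intro x _
      simp
    have hv1 : v 1 = 0 := by
      have := hv 1 1 one_ne_zero one_ne_zero
      rw [mul_one] at this; linarith
    have hvpow : ∀ (x : L) (m : ℕ), x ≠ 0 → v (x ^ m) = m * v x := by
      intro x m hx
      induction m with
      | zero => simp [hv1]
      | succ m ih => rw [pow_succ, hv _ _ (pow_ne_zero _ hx) hx, ih]; push_cast; ring
    have hvprod : ∀ l : List L, (∀ x ∈ l, x ≠ 0) → v l.prod = (l.map v).sum := by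
      intro l
      induction l with
      | nil => intro _; simp [hv1]
      | cons x l ih =>
        intro hx
        rw [List.prod_cons, hv _ _ (hx x (by simp)) (by
          rw [Ne, List.prod_eq_zero_iff]
          intro h0; exact hx 0 (by simp [h0]) rfl), ih (fun y hy => hx y (by simp [hy]))]
        simp
    have hgroot : ∀ x : Rt K h, fL (g x.1) ≠ 0 := fun x => hrootL0 _ (g • x).2
    have hall0 : ∀ y ∈ lK.map (fun x => (fL (g x.1)) ^ N), y ≠ 0 := by
      intro y hy
      obtain ⟨x, _, rfl⟩ := List.mem_map.1 hy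
      exact pow_ne_zero _ (hgroot x)
    have hv2 := congrArg v hgrel
    rw [hvpow _ _ (by
      rw [Ne, List.prod_eq_zero_iff]
      intro h0; exact hall0 0 h0 rfl), hvpow _ _ hQL, hvprod _ hall0, List.map_map] at hv2
    have e5 : (lK.map (v ∘ fun x => fL (g x.1) ^ N)).sum
        = N * (lK.map (fun x => v (fL (g x.1)))).sum := by
      rw [← List.sum_map_mul_left]
      congr 1
      apply List.map_congr_left
      intro x _
      simp only [Function.comp]
      rw [hvpow _ _ (hgroot x)]
    rw [e5] at hv2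
    have hNQ : (N : ℚ) ≠ 0 := by exact_mod_cast hN.ne'
    have e6 : 2 * (lK.map (fun x => v (fL (g x.1)))).sum = lK.length * v (Q : L) := by
      have : (N : ℚ) * (2 * (lK.map (fun x => v (fL (g x.1)))).sum)
          = N * (lK.length * v (Q : L)) := by
        push_cast at hv2
        linarith
      exact mul_left_cancel₀ hNQ this
    have e7 : (((lK.map (fun x => w (g • x))).sum : ℤ) : ℚ)
        = c * (lK.length * v (Q : L) - 2 * (lK.map (fun x => v (fL (g x.1)))).sum) := by
      clear hv2 e5 e6 hall0 hgrel hrelK hlK hlen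
      induction lK with
      | nil => simp
      | cons x lK ih =>
        rw [List.map_cons, List.sum_cons, Int.cast_add, ih, List.map_cons, List.sum_cons,
          List.length_cons]
        have := hu (fL (g • x).1) (hrootL _ (g • x).2)
        change ((u (fL (g • x).1) : ℤ) : ℚ) + _ = _
        rw [this]
        change c * (v (Q : L) - 2 * v (fL (g x.1))) + _ = _
        push_cast
        ring
    rw [e6, sub_self, mul_zero] at e7
    exact_mod_cast e7
  · rintro a l hl ⟨lK, hlK, hsum⟩
    match lK, hlK, hsum with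
    | [], hlK, _ => simp at hlK
    | x :: lK', hlK, hsum =>
      rw [List.map_cons, List.map_cons] at hlK
      obtain ⟨hx, hlK'⟩ := List.cons.inj hlK
      have hmem : t x ∈ x :: lK' :=
        mem_of_sum_zero (G := K ≃ₐ[ℚ] K) t h1 ht w hw hrz (x :: lK') hsum (by simp)
      have hmem' : t x ∈ lK' := by
        rcases List.mem_cons.1 hmem with e | e
        · exact absurd e (h2 x)
        · exact e
      obtain ⟨m1, m2, rfl⟩ := List.append_of_mem hmem'
      rw [List.map_append, List.map_cons] at hlK'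
      obtain ⟨l1, l2', rfl, hl1, hl2⟩ := List.map_eq_append_iff.1 hlK'
      obtain ⟨b, l2, rfl, hb, hl2'⟩ := List.map_eq_cons_iff.1 hl2
      refine ⟨b, l1, l2, rfl, ?_, m1 ++ m2, ?_, ?_⟩
      · apply haO
        change algebraMap Ω (AlgebraicClosure Ω) (a * b) = _
        rw [map_mul]
        change aO a * aO b = _
        rw [hx, hb, ← map_mul, ← hcastO]
        congr 1
        change x.1 * ((Q : K) / x.1) = (Q : K)
        rw [mul_comm, div_mul_cancel₀ _ (hroot0 x.1 x.2)]
      · rw [List.map_append, List.map_append, hl1, hl2']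
      · intro g
        have := hsum g
        simp only [List.map_cons, List.map_append, List.sum_cons, List.sum_append] at this ⊢
        have e : w (g • t x) = - w (g • x) := by rw [← ht, hw]
        rw [e] at this
        omega

theorem pairing {p : ℕ} [hp : Fact p.Prime] {n : ℕ} (h : ℚ[X]) (hirr : Irreducible h)
    (hdeg : h.natDegree = 2 * p ^ n) (Q : ℚ) (hQ : ∀ z : ℂ, aeval z h = 0 → ‖z‖ ^ 2 = (Q : ℝ))
    {L : Type*} [Field L] [CharZero L] (hsplit : (h.map (algebraMap ℚ L)).Splits)
    (v : L → ℚ) (hv : ∀ x y, x ≠ 0 → y ≠ 0 → v (x * y) = v x + v y)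
    (c : ℚ) (u : L → ℤ) (hu : ∀ a : L, aeval a h = 0 → (u a : ℚ) = c * (v (Q : L) - 2 * v a))
    (hne : ∀ a : L, aeval a h = 0 → a ^ 2 ≠ (Q : L))
    (hhalf : ∀ Φ : Finset L, (∀ a ∈ Φ, aeval a h = 0) →
      (∀ a : L, aeval a h = 0 → (a ∈ Φ ↔ (Q : L) / a ∉ Φ)) → ¬ (p : ℤ) ∣ ∑ a ∈ Φ, u a)
    (Ω : Type*) [Field Ω] [CharZero Ω] {N : ℕ} (hN : 0 < N) :
    ∃ Pred : List Ω → Prop,
      (∀ l : List Ω, (∀ a ∈ l, aeval a h = 0) →
        ((l.map (fun a => a ^ N)).prod) ^ 2 = (Q : Ω) ^ (N * l.length) → Pred l) ∧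
      (∀ (a : Ω) (l : List Ω), (∀ b ∈ a :: l, aeval b h = 0) → Pred (a :: l) →
        ∃ (b : Ω) (l1 l2 : List Ω), l = l1 ++ b :: l2 ∧ a * b = (Q : Ω) ∧ Pred (l1 ++ l2)) :=
  @pairing_aux p hp n h hirr h.SplittingField _ _
    (IsSplittingField.splittingField h) hdeg Q hQ L _ _ hsplit v hv c u hu hne hhalf Ω _ _ N hN

end Pool.Agent.H83.TateGal
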