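import Mathlib

/-!
Linear algebra for Tate classes.  `A` is an algebra generated by a linear map `ι : V → A` whose
values commute up to a scalar `s` (for instance the exterior algebra, `s = -1`, or the symmetric
algebra, `s = 1`), and `φ` is an algebra endomorphism of `A` induced by an endomorphism of `V`.
-/

namespace Pool.Agent.H83.TateLin

open Submodule
open scoped Pointwise

set_option linter.unusedSectionVars false

variable {Ω V A : Type*} [Field Ω] [AddCommGroup V] [Module Ω V] [Ring A] [Algebra Ω A]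

/-- The product of the images of the vectors in a list of (vector, eigenvalue) pairs. -/
def pr (ι : V →ₗ[Ω] A) (l : List (V × Ω)) : A := (l.map (fun p => ι p.1)).prod

/-- All members of the list are eigenvectors of `F` with the recorded eigenvalue, in `Λ`. -/
def good (F : V →ₗ[Ω] V) (Λ : Set Ω) (l : List (V × Ω)) : Prop :=
  ∀ p ∈ l, F p.1 = p.2 • p.1 ∧ p.2 ∈ Λ

/-- The product of the `N`-th powers of the recorded eigenvalues. -/
def ev (N : ℕ) (l : List (V × Ω)) : Ω := (l.map (fun p => p.2 ^ N)).prod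

@[simp] theorem pr_nil (ι : V →ₗ[Ω] A) : pr ι [] = 1 := rfl

@[simp] theorem pr_cons (ι : V →ₗ[Ω] A) (p : V × Ω) (l : List (V × Ω)) :
    pr ι (p :: l) = ι p.1 * pr ι l := by simp [pr]

@[simp] theorem ev_cons (N : ℕ) (p : V × Ω) (l : List (V × Ω)) :
    ev N (p :: l) = p.2 ^ N * ev N l := by simp [ev]

theorem pow_range_le (ι : V →ₗ[Ω] A) (F : V →ₗ[Ω] V) (Λ : Set Ω)
    (hspan : span Ω {x : V | ∃ a ∈ Λ, F x = a • x} = ⊤) (n : ℕ) :
    (LinearMap.range ι) ^ n ≤ span Ω {a : A | ∃ l, good F Λ l ∧ l.length = n ∧ a = pr ι l} := by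
  have hr : LinearMap.range ι = span Ω (ι '' {x : V | ∃ a ∈ Λ, F x = a • x}) := by
    rw [← Submodule.map_span, hspan, Submodule.map_top]
  induction n with
  | zero =>
    rw [pow_zero, one_eq_span, span_le, Set.singleton_subset_iff]
    exact subset_span ⟨[], by simp [good], rfl, rfl⟩
  | succ n ih =>
    rw [pow_succ']
    calc LinearMap.range ι * LinearMap.range ι ^ n
        ≤ span Ω (ι '' {x : V | ∃ a ∈ Λ, F x = a • x})
          * span Ω {a : A | ∃ l, good F Λ l ∧ l.length = n ∧ a = pr ι l} :=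
          mul_le_mul' hr.le ih
      _ = span Ω ((ι '' {x : V | ∃ a ∈ Λ, F x = a • x}) *
          {a : A | ∃ l, good F Λ l ∧ l.length = n ∧ a = pr ι l}) := span_mul_span _ _ _
      _ ≤ _ := by
        apply span_mono
        rintro _ ⟨_, ⟨x, ⟨a, ha, hx⟩, rfl⟩, _, ⟨l, hl, hlen, rfl⟩, rfl⟩
        refine ⟨(x, a) :: l, ?_, by simp [hlen], by simp⟩
        intro p hp
        rcases List.mem_cons.1 hp with rfl | hp
        · exact ⟨hx, ha⟩
        · exact hl p hp

theorem phi_pr (ι : V →ₗ[Ω] A) (F : V →ₗ[Ω] V) (Λ : Set Ω) (N : ℕ) (φ : A →ₐ[Ω] A)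
    (hφ : ∀ x, φ (ι x) = ι ((F ^ N) x)) (l : List (V × Ω)) (hl : good F Λ l) :
    φ (pr ι l) = ev N l • pr ι l := by
  have hpow : ∀ (n : ℕ) (x : V) (a : Ω), F x = a • x → (F ^ n) x = a ^ n • x := by
    intro n x a hx
    induction n with
    | zero => simp
    | succ n ih => rw [pow_succ, Module.End.mul_apply, hx, map_smul, ih, smul_smul, pow_succ']
  induction l with
  | nil => simp [ev]
  | cons p l ih =>
    have h1 := hl p (by simp)
    have h2 : good F Λ l := fun q hq => hl q (by simp [hq])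
    rw [pr_cons, map_mul, ih h2, hφ, hpow _ _ _ h1.1, ev_cons, map_smul, smul_mul_smul_comm]

/-- Eigenvectors of `φ` in degree `n` are combinations of products of eigenvectors with the right
product of eigenvalues. -/
theorem eig_mem_span (ι : V →ₗ[Ω] A) (F : V →ₗ[Ω] V) (Λ : Set Ω)
    (hspan : span Ω {x : V | ∃ a ∈ Λ, F x = a • x} = ⊤) (N : ℕ) (φ : A →ₐ[Ω] A)
    (hφ : ∀ x, φ (ι x) = ι ((F ^ N) x)) (n : ℕ) (c : Ω) {x : A}
    (hx : x ∈ (LinearMap.range ι) ^ n) (hφx : φ x = c • x) :
    x ∈ span Ω {a : A | ∃ l, good F Λ l ∧ l.length = n ∧ ev N l = c ∧ a = pr ι l} := by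
  have h1 := pow_range_le ι F Λ hspan n hx
  set S := {a : A | ∃ l, good F Λ l ∧ l.length = n ∧ a = pr ι l}
  set S1 := {a : A | ∃ l, good F Λ l ∧ l.length = n ∧ ev N l = c ∧ a = pr ι l}
  set S2 := {a : A | ∃ l, good F Λ l ∧ l.length = n ∧ ev N l ≠ c ∧ a = pr ι l}
  have hS : S ⊆ S1 ∪ S2 := by
    rintro _ ⟨l, hl, hn, rfl⟩
    by_cases h : ev N l = c
    · exact Or.inl ⟨l, hl, hn, h, rfl⟩
    · exact Or.inr ⟨l, hl, hn, h, rfl⟩
  have h2 : x ∈ span Ω S1 ⊔ span Ω S2 := by
    rw [← span_union]; exact span_mono hS h1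
  obtain ⟨a, ha, b, hb, hab⟩ := mem_sup.1 h2
  have hae : a ∈ Module.End.eigenspace φ.toLinearMap c := by
    refine span_induction (p := fun z _ => z ∈ Module.End.eigenspace φ.toLinearMap c)
      ?_ (zero_mem _) (fun _ _ _ _ h h' => add_mem h h') (fun r _ _ h => smul_mem _ r h) ha
    rintro _ ⟨l, hl, hn, hc, rfl⟩
    rw [Module.End.mem_eigenspace_iff]
    change φ (pr ι l) = _
    rw [phi_pr ι F Λ N φ hφ l hl, hc]
  have hbe : b ∈ Module.End.eigenspace φ.toLinearMap c := by
    have : b = x - a := by rw [← hab]; abel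
    rw [this]
    apply sub_mem _ hae
    rw [Module.End.mem_eigenspace_iff]; exact hφx
  have hbe' : b ∈ ⨆ (d : Ω) (_ : d ≠ c), Module.End.eigenspace φ.toLinearMap d := by
    refine span_induction
      (p := fun z _ => z ∈ ⨆ (d : Ω) (_ : d ≠ c), Module.End.eigenspace φ.toLinearMap d)
      ?_ (zero_mem _) (fun _ _ _ _ h h' => add_mem h h') (fun r _ _ h => smul_mem _ r h) hb
    rintro _ ⟨l, hl, hn, hc, rfl⟩
    apply mem_iSup_of_mem (ev N l)
    apply mem_iSup_of_mem hc
    rw [Module.End.mem_eigenspace_iff]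
    exact phi_pr ι F Λ N φ hφ l hl
  have hb0 : b = 0 := by
    have := (Module.End.eigenspaces_iSupIndep φ.toLinearMap) c
    exact disjoint_def.1 this b hbe hbe'
  rw [← hab, hb0, add_zero]
  exact ha

/-- Permuting the factors changes the product by a scalar. -/
theorem pr_perm (ι : V →ₗ[Ω] A) (s : Ω) (hs : ∀ x y, ι x * ι y = s • (ι y * ι x))
    {l l' : List (V × Ω)} (h : l.Perm l') : ∃ e : Ω, pr ι l = e • pr ι l' := by
  induction h with
  | nil => exact ⟨1, by simp⟩
  | cons p _ ih =>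
    obtain ⟨e, he⟩ := ih
    exact ⟨e, by rw [pr_cons, pr_cons, he, mul_smul_comm]⟩
  | swap p q l =>
    refine ⟨s, ?_⟩
    simp only [pr_cons]
    rw [← mul_assoc, hs, smul_mul_assoc, mul_assoc]
  | trans _ _ ih1 ih2 =>
    obtain ⟨e, he⟩ := ih1
    obtain ⟨e', he'⟩ := ih2
    exact ⟨e * e', by rw [he, he', smul_smul]⟩

/-- If the eigenvalues in the list can be paired off, the product lies in the `j`-th power of a
submodule containing the products of two paired eigenvectors. -/
theorem pr_mem_pow (ι : V →ₗ[Ω] A) (s : Ω) (hs : ∀ x y, ι x * ι y = s • (ι y * ι x))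
    (F : V →ₗ[Ω] V) (Λ : Set Ω) (rel : Ω → Ω → Prop) (T : Submodule Ω A)
    (hT : ∀ x y : V, ∀ a b : Ω, F x = a • x → F y = b • y → a ∈ Λ → b ∈ Λ → rel a b →
      ι x * ι y ∈ T)
    (Pred : List Ω → Prop)
    (hstep : ∀ (a : Ω) (l : List Ω), (∀ b ∈ a :: l, b ∈ Λ) → Pred (a :: l) →
      ∃ (b : Ω) (l1 l2 : List Ω), l = l1 ++ b :: l2 ∧ rel a b ∧ Pred (l1 ++ l2))
    (j : ℕ) : ∀ l : List (V × Ω), good F Λ l → Pred (l.map Prod.snd) → l.length = 2 * j →
      pr ι l ∈ T ^ j := by
  induction j with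
  | zero =>
    intro l _ _ hlen
    have : l = [] := List.length_eq_zero_iff.1 (by simpa using hlen)
    subst this
    rw [pow_zero, pr_nil]
    exact Submodule.one_le.1 le_rfl
  | succ j ih =>
    intro l hl hP hlen
    match l, hl, hP, hlen with
    | [], _, _, hlen => simp at hlen
    | p :: l, hl, hP, hlen =>
      rw [List.map_cons] at hP
      obtain ⟨b, l1, l2, hl12, hrel, hP'⟩ := hstep p.2 (l.map Prod.snd) (by
        intro c hc
        rcases List.mem_cons.1 hc with rfl | hc
        · exact (hl p (by simp)).2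
        · obtain ⟨r, hr, rfl⟩ := List.mem_map.1 hc
          exact (hl r (by simp [hr])).2) hP
      obtain ⟨m1, m2', hm, hm1, hm2⟩ := List.map_eq_append_iff.1 hl12
      obtain ⟨r, m2, rfl, hr, hm2'⟩ := List.map_eq_cons_iff.1 hm2
      subst hm
      have hperm : (p :: (m1 ++ r :: m2)).Perm (p :: r :: (m1 ++ m2)) :=
        List.Perm.cons _ List.perm_middle
      obtain ⟨e, he⟩ := pr_perm ι s hs hperm
      rw [he]
      apply Submodule.smul_mem
      rw [pr_cons, pr_cons, ← mul_assoc, pow_succ']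
      apply Submodule.mul_mem_mul
      · have hp := hl p (by simp)
        have hr' := hl r (by simp)
        exact hT _ _ _ _ hp.1 hr'.1 hp.2 hr'.2 (by rw [hr]; exact hrel)
      · apply ih
        · intro t ht
          apply hl
          simp only [List.mem_append, List.mem_cons] at ht ⊢
          tauto
        · rw [List.map_append, hm1, hm2']; exact hP'
        · simp only [List.length_cons, List.length_append] at hlen ⊢
          omega

end Pool.Agent.H83.TateLin
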