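import Mathlib

/-!
# Labelled Markov decision processes: definitions
-/

namespace Pool.Agent.H83

open MeasureTheory ProbabilityTheory

/-- A labelled Markov decision process with states `S`, actions `A` and labels `L`: every state has a
nonempty finite set of enabled actions, and every enabled action carries a probability distribution
with rational entries on pairs (label, next state). -/
structure LMDP (S A L : Type) [Fintype S] [Fintype L] where
  enabled : S → Finset A
  enabled_nonempty : ∀ s, (enabled s).Nonempty
  prob : S → A → L × S → ℚ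
  prob_nonneg : ∀ s, ∀ a ∈ enabled s, ∀ p, 0 ≤ prob s a p
  prob_sum : ∀ s, ∀ a ∈ enabled s, ∑ p, prob s a p = 1

/-- A memoryless (randomised) strategy: a probability distribution on the enabled actions of every
state. -/
structure Strategy {S A L : Type} [Fintype S] [Fintype L] (M : LMDP S A L) where
  wt : S → A → ℝ
  nonneg : ∀ s a, 0 ≤ wt s a
  off : ∀ s a, a ∉ M.enabled s → wt s a = 0
  sum_one : ∀ s, ∑ a ∈ M.enabled s, wt s a = 1

/-- `μ` is a probability distribution on the finite set `S`. -/
structure IsDist {S : Type} [Fintype S] (μ : S → ℝ) : Prop where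
  nonneg : ∀ s, 0 ≤ μ s
  sum_one : ∑ s, μ s = 1

section

variable {S A L : Type} [Fintype S] [Fintype L]

/-- The probability of emitting the label `p.1` and moving to the state `p.2` from the state `s`. -/
def LMDP.step (M : LMDP S A L) (σ : Strategy M) (s : S) (p : L × S) : ℝ :=
  ∑ a ∈ M.enabled s, σ.wt s a * (M.prob s a p : ℝ)

lemma LMDP.step_nonneg (M : LMDP S A L) (σ : Strategy M) (s : S) (p : L × S) :
    0 ≤ M.step σ s p :=
  Finset.sum_nonneg fun a ha => mul_nonneg (σ.nonneg s a) (by exact_mod_cast M.prob_nonneg s a ha p)

lemma LMDP.sum_step (M : LMDP S A L) (σ : Strategy M) (s : S) : ∑ p, M.step σ s p = 1 := by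
  unfold LMDP.step
  rw [Finset.sum_comm, ← σ.sum_one s]
  refine Finset.sum_congr rfl fun a ha => ?_
  rw [← Finset.mul_sum]
  have : ∑ p, (M.prob s a p : ℝ) = 1 := by exact_mod_cast M.prob_sum s a ha
  rw [this, mul_one]

variable [MeasurableSpace S] [DiscreteMeasurableSpace S]
  [MeasurableSpace L] [DiscreteMeasurableSpace L]

/-- The law of the pair (emitted label, next state) from the state `s`. -/
noncomputable def LMDP.stepLaw (M : LMDP S A L) (σ : Strategy M) (s : S) : Measure (L × S) :=
  ∑ p, ENNReal.ofReal (M.step σ s p) • Measure.dirac p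

instance (M : LMDP S A L) (σ : Strategy M) (s : S) : IsProbabilityMeasure (M.stepLaw σ s) := by
  constructor
  unfold LMDP.stepLaw
  simp only [Measure.coe_finsetSum, Finset.sum_apply, Measure.smul_apply, measure_univ,
    smul_eq_mul, mul_one]
  rw [← ENNReal.ofReal_sum_of_nonneg fun p _ => M.step_nonneg σ s p, M.sum_step,
    ENNReal.ofReal_one]

/-- The Markov kernel on histories of pairs (label, next state): the next pair is drawn from the
current state. -/
noncomputable def LMDP.kernel (M : LMDP S A L) (σ : Strategy M) (n : ℕ) :
    Kernel ((i : Finset.Iic n) → (fun _ : ℕ => L × S) i) (L × S) :=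
  (Kernel.ofFunOfCountable (M.stepLaw σ)).comap
    (fun h => (h ⟨n, Finset.mem_Iic.mpr le_rfl⟩).2) (by fun_prop)

instance (M : LMDP S A L) (σ : Strategy M) (n : ℕ) : IsMarkovKernel (M.kernel σ n) := by
  have : IsMarkovKernel (Kernel.ofFunOfCountable (M.stepLaw σ)) :=
    ⟨fun s => inferInstanceAs (IsProbabilityMeasure (M.stepLaw σ s))⟩
  unfold LMDP.kernel
  infer_instance

/-- The law of the sequence of pairs (emitted label, next state) when the initial state is drawn
from `μ` and the memoryless strategy `σ` is used. -/
noncomputable def LMDP.pathLaw (M : LMDP S A L) (σ : Strategy M) (μ : S → ℝ) :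
    Measure (ℕ → L × S) :=
  Kernel.trajMeasure (X := fun _ => L × S) (∑ s, ENNReal.ofReal (μ s) • M.stepLaw σ s)
    (M.kernel σ)

/-- The law of the infinite label sequence. -/
noncomputable def LMDP.labelLaw (M : LMDP S A L) (σ : Strategy M) (μ : S → ℝ) :
    Measure (ℕ → L) :=
  (M.pathLaw σ μ).map fun z n => (z n).1

end

/-- The total variation distance of two measures: the supremum of `|P E - Q E|` over all measurable
sets `E`. -/
noncomputable def tvDist {Ω : Type} [MeasurableSpace Ω] (P Q : Measure Ω) : ℝ :=
  sSup {r | ∃ E, MeasurableSet E ∧ r = |P.real E - Q.real E|}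

end Pool.Agent.H83
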