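import Mathlib

/-!
# Labelled Markov chains: separation of label sequences, elementary part
-/

namespace Pool.Agent.H83

open Matrix

set_option linter.unusedSectionVars false

variable {S L : Type} [Fintype S]

/-- The vector of probabilities of emitting the word `u` from each state. -/
def ev (T : L → Matrix S S ℝ) : List L → S → ℝ
  | [] => 1
  | ℓ :: u => T ℓ *ᵥ ev T u

/-- The (sub-)distribution over states after emitting the word `w` from `α`. -/
def act (T : L → Matrix S S ℝ) : List L → (S → ℝ) → S → ℝ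
  | [], α => α
  | ℓ :: w, α => act T w (α ᵥ* T ℓ)

lemma act_dot_ev (T : L → Matrix S S ℝ) (w u : List L) (α : S → ℝ) :
    act T w α ⬝ᵥ ev T u = α ⬝ᵥ ev T (w ++ u) := by
  induction w generalizing α with
  | nil => rfl
  | cons ℓ w ih =>
    simp only [act, List.cons_append, ev]
    rw [ih, dotProduct_mulVec]

lemma act_append (T : L → Matrix S S ℝ) (w u : List L) (α : S → ℝ) :
    act T (w ++ u) α = act T u (act T w α) := by
  induction w generalizing α with
  | nil => rfl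
  | cons ℓ w ih => simp only [act, List.cons_append, ih]

lemma vecMul_nonneg {T : Matrix S S ℝ} (hT : ∀ s t, 0 ≤ T s t) {α : S → ℝ} (hα : ∀ s, 0 ≤ α s) :
    ∀ s, 0 ≤ (α ᵥ* T) s := by
  intro s
  exact Finset.sum_nonneg fun t _ => mul_nonneg (hα t) (hT t s)

lemma act_nonneg {T : L → Matrix S S ℝ} (hT : ∀ ℓ s t, 0 ≤ T ℓ s t) (w : List L) {α : S → ℝ}
    (hα : ∀ s, 0 ≤ α s) : ∀ s, 0 ≤ act T w α s := by
  induction w generalizing α with
  | nil => exact hα
  | cons ℓ w ih => exact ih (vecMul_nonneg (hT ℓ) hα)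

lemma ev_nonneg {T : L → Matrix S S ℝ} (hT : ∀ ℓ s t, 0 ≤ T ℓ s t) (w : List L) :
    ∀ s, 0 ≤ ev T w s := by
  induction w with
  | nil => intro s; simp [ev]
  | cons ℓ w ih =>
    intro s
    exact Finset.sum_nonneg fun t _ => mul_nonneg (hT ℓ s t) (ih t)

lemma dot_nonneg {α β : S → ℝ} (hα : ∀ s, 0 ≤ α s) (hβ : ∀ s, 0 ≤ β s) : 0 ≤ α ⬝ᵥ β :=
  Finset.sum_nonneg fun s _ => mul_nonneg (hα s) (hβ s)

lemma sum_words_succ [Fintype L] {n : ℕ} (F : List L → ℝ) :
    ∑ u : Fin (n + 1) → L, F (List.ofFn u) = ∑ ℓ, ∑ u : Fin n → L, F (ℓ :: List.ofFn u) := by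
  rw [← (Fin.consEquiv (fun _ => L)).sum_comp, Fintype.sum_prod_type]
  simp [Fin.consEquiv, List.ofFn_succ]

lemma sum_words_succ' [Fintype L] {n : ℕ} (F : List L → ℝ) :
    ∑ u : Fin (n + 1) → L, F (List.ofFn u) = ∑ u : Fin n → L, ∑ ℓ, F (List.ofFn u ++ [ℓ]) := by
  induction n generalizing F with
  | zero =>
    rw [sum_words_succ]
    simp
  | succ n ih =>
    rw [sum_words_succ, Finset.sum_congr rfl fun ℓ _ => ih (fun u => F (ℓ :: u))]
    exact (sum_words_succ (fun u => ∑ ℓ, F (u ++ [ℓ]))).symm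

/-- A labelled Markov chain: nonnegative entries, total outgoing probability one. -/
structure IsChain [Fintype L] (T : L → Matrix S S ℝ) : Prop where
  nonneg : ∀ ℓ s t, 0 ≤ T ℓ s t
  sum_one : ∀ s, ∑ ℓ, ∑ t, T ℓ s t = 1

section

variable [Fintype L] {T : L → Matrix S S ℝ}

lemma IsChain.sum_ev_snoc (hT : IsChain T) (u : List L) : ∑ ℓ, ev T (u ++ [ℓ]) = ev T u := by
  induction u with
  | nil =>
    funext s
    simp only [List.nil_append, ev, Finset.sum_apply]
    simpa [Matrix.mulVec, dotProduct] using hT.sum_one s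
  | cons ℓ u ih =>
    simp only [List.cons_append, ev]
    rw [← Matrix.mulVec_sum, ih]

/-- Bhattacharyya affinity of the label processes up to time `n`. -/
noncomputable def aff (T : L → Matrix S S ℝ) (n : ℕ) (α β : S → ℝ) : ℝ :=
  ∑ u : Fin n → L, √((α ⬝ᵥ ev T (List.ofFn u)) * (β ⬝ᵥ ev T (List.ofFn u)))

/-- Overlap of the label processes up to time `n`. -/
noncomputable def ov (T : L → Matrix S S ℝ) (n : ℕ) (α β : S → ℝ) : ℝ :=
  ∑ u : Fin n → L, min (α ⬝ᵥ ev T (List.ofFn u)) (β ⬝ᵥ ev T (List.ofFn u))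

lemma aff_succ (n : ℕ) (α β : S → ℝ) :
    aff T (n + 1) α β = ∑ ℓ, aff T n (α ᵥ* T ℓ) (β ᵥ* T ℓ) := by
  unfold aff
  rw [sum_words_succ (fun u => √((α ⬝ᵥ ev T u) * (β ⬝ᵥ ev T u)))]
  simp only [ev, dotProduct_mulVec]

lemma ov_succ (n : ℕ) (α β : S → ℝ) :
    ov T (n + 1) α β = ∑ ℓ, ov T n (α ᵥ* T ℓ) (β ᵥ* T ℓ) := by
  unfold ov
  rw [sum_words_succ (fun u => min (α ⬝ᵥ ev T u) (β ⬝ᵥ ev T u))]
  simp only [ev, dotProduct_mulVec]

lemma ov_nonneg (hT : IsChain T) (n : ℕ) {α β : S → ℝ} (hα : ∀ s, 0 ≤ α s) (hβ : ∀ s, 0 ≤ β s) :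
    0 ≤ ov T n α β :=
  Finset.sum_nonneg fun _ _ => le_min (dot_nonneg hα (ev_nonneg hT.nonneg _))
    (dot_nonneg hβ (ev_nonneg hT.nonneg _))

lemma aff_nonneg (n : ℕ) (α β : S → ℝ) : 0 ≤ aff T n α β :=
  Finset.sum_nonneg fun _ _ => Real.sqrt_nonneg _

lemma ov_le_aff (hT : IsChain T) (n : ℕ) {α β : S → ℝ} (hα : ∀ s, 0 ≤ α s) (hβ : ∀ s, 0 ≤ β s) :
    ov T n α β ≤ aff T n α β := by
  refine Finset.sum_le_sum fun u _ => ?_
  have ha := dot_nonneg hα (ev_nonneg hT.nonneg (List.ofFn u))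
  have hb := dot_nonneg hβ (ev_nonneg hT.nonneg (List.ofFn u))
  apply Real.le_sqrt_of_sq_le
  rw [sq]
  exact mul_le_mul (min_le_left _ _) (min_le_right _ _) (le_min ha hb) ha

lemma ov_succ_le (hT : IsChain T) (n : ℕ) (α β : S → ℝ) : ov T (n + 1) α β ≤ ov T n α β := by
  unfold ov
  rw [sum_words_succ' (fun u => min (α ⬝ᵥ ev T u) (β ⬝ᵥ ev T u))]
  refine Finset.sum_le_sum fun u _ => ?_
  refine le_min ?_ ?_
  · calc _ ≤ ∑ ℓ, α ⬝ᵥ ev T (List.ofFn u ++ [ℓ]) := Finset.sum_le_sum fun _ _ => min_le_left _ _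
      _ = α ⬝ᵥ ev T (List.ofFn u) := by rw [← hT.sum_ev_snoc, dotProduct_sum]
  · calc _ ≤ ∑ ℓ, β ⬝ᵥ ev T (List.ofFn u ++ [ℓ]) := Finset.sum_le_sum fun _ _ => min_le_right _ _
      _ = β ⬝ᵥ ev T (List.ofFn u) := by rw [← hT.sum_ev_snoc, dotProduct_sum]

lemma ov_antitone (hT : IsChain T) (α β : S → ℝ) : Antitone fun n => ov T n α β :=
  antitone_nat_of_succ_le fun n => ov_succ_le hT n α β

lemma ov_act_le (hT : IsChain T) (n : ℕ) (w : List L) {α β : S → ℝ} (hα : ∀ s, 0 ≤ α s)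
    (hβ : ∀ s, 0 ≤ β s) : ov T n (act T w α) (act T w β) ≤ ov T (n + w.length) α β := by
  induction w generalizing α β with
  | nil => exact le_rfl
  | cons ℓ w ih =>
    have hα' := vecMul_nonneg (hT.nonneg ℓ) hα
    have hβ' := vecMul_nonneg (hT.nonneg ℓ) hβ
    refine (ih hα' hβ').trans ?_
    rw [List.length_cons, ← add_assoc, ov_succ]
    exact Finset.single_le_sum (f := fun ℓ => ov T (n + w.length) (α ᵥ* T ℓ) (β ᵥ* T ℓ))
      (fun ℓ' _ => ov_nonneg hT _ (vecMul_nonneg (hT.nonneg ℓ') hα)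
        (vecMul_nonneg (hT.nonneg ℓ') hβ)) (Finset.mem_univ ℓ)

lemma IsChain.sum_ev (hT : IsChain T) (n : ℕ) : ∑ u : Fin n → L, ev T (List.ofFn u) = 1 := by
  induction n with
  | zero => simp [ev]
  | succ n ih =>
    funext s
    have h1 := sum_words_succ' (n := n) (fun u => ev T u s)
    rw [Finset.sum_apply, h1, ← ih, Finset.sum_apply]
    refine Finset.sum_congr rfl fun u _ => ?_
    rw [← Finset.sum_apply, hT.sum_ev_snoc]

/-- The span of the vectors `ev T u`. -/
def evSpan (T : L → Matrix S S ℝ) : Submodule ℝ (S → ℝ) := Submodule.span ℝ (Set.range (ev T))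

/-- Vanishing overlap gives, for reachable pairs, an exact separating vector in the span. -/
lemma exists_sep (hT : IsChain T) {α β : S → ℝ} (hα : ∀ s, 0 ≤ α s) (hβ : ∀ s, 0 ≤ β s)
    (h : ∀ ε > 0, ∃ n, ov T n α β < ε) (w : List L) :
    ∃ v ∈ evSpan T, (∀ s, 0 < act T w α s → v s = 1) ∧ (∀ s, 0 < act T w β s → v s = 0) := by
  classical
  set a := act T w α with ha
  set b := act T w β with hb
  have ha0 : ∀ s, 0 ≤ a s := act_nonneg hT.nonneg w hα
  have hb0 : ∀ s, 0 ≤ b s := act_nonneg hT.nonneg w hβ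
  have h' : ∀ ε > 0, ∃ n, ov T n a b < ε := by
    intro ε hε
    obtain ⟨n, hn⟩ := h ε hε
    refine ⟨n, lt_of_le_of_lt (ov_act_le hT n w hα hβ) ?_⟩
    exact lt_of_le_of_lt (ov_antitone hT α β (Nat.le_add_right _ _)) hn
  -- approximate separation
  have happ : ∀ ε > 0, ∃ v ∈ evSpan T, (∀ s, a s * (1 - v s) ≤ ε ∧ v s ≤ 1) ∧
      (∀ s, b s * v s ≤ ε ∧ 0 ≤ v s) := by
    intro ε hε
    obtain ⟨n, hn⟩ := h' ε hε
    let E : Finset (Fin n → L) := Finset.univ.filter fun u =>
      b ⬝ᵥ ev T (List.ofFn u) ≤ a ⬝ᵥ ev T (List.ofFn u)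
    let v : S → ℝ := ∑ u ∈ E, ev T (List.ofFn u)
    have hv0 : ∀ s, 0 ≤ v s := by
      intro s
      simp only [v, Finset.sum_apply]
      exact Finset.sum_nonneg fun u _ => ev_nonneg hT.nonneg _ s
    have hsum : v + ∑ u ∈ Finset.univ.filter (fun u : Fin n → L =>
        ¬ b ⬝ᵥ ev T (List.ofFn u) ≤ a ⬝ᵥ ev T (List.ofFn u)), ev T (List.ofFn u) = 1 := by
      rw [← hT.sum_ev n]
      exact Finset.sum_filter_add_sum_filter_not _ _ _
    have h1v : ∀ s, 1 - v s = (∑ u ∈ Finset.univ.filter (fun u : Fin n → L =>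
        ¬ b ⬝ᵥ ev T (List.ofFn u) ≤ a ⬝ᵥ ev T (List.ofFn u)), ev T (List.ofFn u)) s := by
      intro s
      have := congrFun hsum s
      simp only [Pi.add_apply, Pi.one_apply] at this
      linarith
    have hv1 : ∀ s, 0 ≤ 1 - v s := by
      intro s
      rw [h1v, Finset.sum_apply]
      exact Finset.sum_nonneg fun u _ => ev_nonneg hT.nonneg _ s
    have hav : a ⬝ᵥ (1 - v) + b ⬝ᵥ v = ov T n a b := by
      unfold ov
      rw [← Finset.sum_filter_add_sum_filter_not Finset.univ (fun u : Fin n → L =>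
        b ⬝ᵥ ev T (List.ofFn u) ≤ a ⬝ᵥ ev T (List.ofFn u))]
      rw [add_comm]
      congr 1
      · simp only [v, dotProduct_sum]
        refine Finset.sum_congr rfl fun u hu => ?_
        rw [min_eq_right (Finset.mem_filter.mp hu).2]
      · have : (1 - v : S → ℝ) = ∑ u ∈ Finset.univ.filter (fun u : Fin n → L =>
            ¬ b ⬝ᵥ ev T (List.ofFn u) ≤ a ⬝ᵥ ev T (List.ofFn u)), ev T (List.ofFn u) := by
          funext s
          exact h1v s
        rw [this, dotProduct_sum]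
        refine Finset.sum_congr rfl fun u hu => ?_
        rw [min_eq_left (le_of_lt (not_le.mp (Finset.mem_filter.mp hu).2))]
    have hp1 : 0 ≤ a ⬝ᵥ (1 - v) := dot_nonneg ha0 (fun s => hv1 s)
    have hp2 : 0 ≤ b ⬝ᵥ v := dot_nonneg hb0 hv0
    refine ⟨v, ?_, ?_, ?_⟩
    · exact Submodule.sum_mem _ fun u _ => Submodule.subset_span ⟨_, rfl⟩
    · intro s
      refine ⟨?_, by linarith [hv1 s]⟩
      have : a s * (1 - v s) ≤ a ⬝ᵥ (1 - v) :=
        Finset.single_le_sum (f := fun s => a s * (1 - v) s)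
          (fun t _ => mul_nonneg (ha0 t) (hv1 t)) (Finset.mem_univ s)
      linarith
    · intro s
      refine ⟨?_, hv0 s⟩
      have : b s * v s ≤ b ⬝ᵥ v :=
        Finset.single_le_sum (f := fun s => b s * v s)
          (fun t _ => mul_nonneg (hb0 t) (hv0 t)) (Finset.mem_univ s)
      linarith
  -- take a limit: the image of the span under restriction is closed
  let B : Set S := {s | 0 < a s ∨ 0 < b s}
  let res : (S → ℝ) →ₗ[ℝ] (B → ℝ) := LinearMap.funLeft ℝ ℝ (fun s : B => (s : S))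
  let target : B → ℝ := fun s => if 0 < a s then 1 else 0
  have hclosed : IsClosed ((evSpan T).map res : Set (B → ℝ)) :=
    Submodule.closed_of_finiteDimensional _
  have hdisj : ∀ s, 0 < a s → 0 < b s → False := by
    intro s h1 h2
    have hpos : 0 < (1 / a s + 1 / b s) := by positivity
    obtain ⟨v, -, hv1, hv2⟩ := happ (1 / (2 * (1 / a s + 1 / b s))) (by positivity)
    have e1 := (hv1 s).1
    have e2 := (hv2 s).1
    set ε := 1 / (2 * (1 / a s + 1 / b s)) with hε
    have e3 : 1 - v s ≤ ε * (1 / a s) := by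
      rw [mul_one_div, le_div_iff₀ h1]; linarith
    have e4 : v s ≤ ε * (1 / b s) := by
      rw [mul_one_div, le_div_iff₀ h2]; linarith
    have e5 : (1 : ℝ) ≤ ε * (1 / a s + 1 / b s) := by linarith
    have e6 : ε * (1 / a s + 1 / b s) = 1 / 2 := by
      rw [hε]; field_simp
    linarith
  have hmem : target ∈ ((evSpan T).map res : Set (B → ℝ)) := by
    choose f hf1 hf2 hf3 using fun n : ℕ => happ (1 / ((n : ℝ) + 1)) (by positivity)
    refine hclosed.mem_of_tendsto (f := fun n : ℕ => res (f n)) (b := Filter.atTop) ?_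
      (Filter.Eventually.of_forall fun n => ⟨f n, hf1 n, rfl⟩)
    rw [tendsto_pi_nhds]
    rintro ⟨s, hs⟩
    have hlim : Filter.Tendsto (fun n : ℕ => 1 / ((n : ℝ) + 1)) Filter.atTop (nhds 0) :=
      tendsto_one_div_add_atTop_nhds_zero_nat
    by_cases hs1 : 0 < a s
    · have ht : target ⟨s, hs⟩ = 1 := by simp [target, hs1]
      rw [ht]
      have hlow : Filter.Tendsto (fun n : ℕ => 1 - 1 / ((n : ℝ) + 1) * (1 / a s)) Filter.atTop
          (nhds 1) := by
        have := (tendsto_const_nhds (x := (1 : ℝ))).sub (hlim.mul_const (1 / a s))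
        simpa using this
      refine tendsto_of_tendsto_of_tendsto_of_le_of_le hlow tendsto_const_nhds ?_ ?_
      · intro n
        have e1 := (hf2 n s).1
        have : 1 - f n s ≤ 1 / ((n : ℝ) + 1) * (1 / a s) := by
          rw [mul_one_div, le_div_iff₀ hs1]; linarith
        simp only [res, LinearMap.funLeft_apply]
        linarith
      · intro n
        exact (hf2 n s).2
    · have hs2 : 0 < b s := by
        rcases hs with h | h
        · exact absurd h hs1
        · exact h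
      have ht : target ⟨s, hs⟩ = 0 := by simp [target, hs1]
      rw [ht]
      have hup : Filter.Tendsto (fun n : ℕ => 1 / ((n : ℝ) + 1) * (1 / b s)) Filter.atTop
          (nhds 0) := by
        simpa using hlim.mul_const (1 / b s)
      refine tendsto_of_tendsto_of_tendsto_of_le_of_le tendsto_const_nhds hup ?_ ?_
      · intro n
        exact (hf3 n s).2
      · intro n
        have e1 := (hf3 n s).1
        have : f n s ≤ 1 / ((n : ℝ) + 1) * (1 / b s) := by
          rw [mul_one_div, le_div_iff₀ hs2]; linarith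
        simpa [res] using this
  obtain ⟨v, hv, hvt⟩ := hmem
  refine ⟨v, hv, ?_, ?_⟩
  · intro s hs
    have := congrFun hvt ⟨s, Or.inl hs⟩
    simpa [res, target, hs] using this
  · intro s hs
    have hna : ¬ 0 < a s := fun h => hdisj s h hs
    have := congrFun hvt ⟨s, Or.inr hs⟩
    simpa [res, target, hna] using this

/-! ### Short words suffice -/

/-- The span of the vectors `ev T u` with `u` of length at most `n`. -/
def evSpanLE (T : L → Matrix S S ℝ) (n : ℕ) : Submodule ℝ (S → ℝ) :=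
  Submodule.span ℝ (ev T '' {u | u.length ≤ n})

lemma evSpanLE_mono : Monotone (evSpanLE T) := by
  intro m n hmn
  exact Submodule.span_mono (Set.image_mono fun u hu => le_trans hu hmn)

lemma mulVec_mem_evSpanLE {n : ℕ} (ℓ : L) {v : S → ℝ} (hv : v ∈ evSpanLE T n) :
    T ℓ *ᵥ v ∈ evSpanLE T (n + 1) := by
  have : evSpanLE T n ≤ (evSpanLE T (n + 1)).comap (T ℓ).mulVecLin := by
    refine Submodule.span_le.mpr ?_
    rintro _ ⟨u, hu, rfl⟩
    exact Submodule.subset_span ⟨ℓ :: u, by simpa using hu, rfl⟩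
  exact this hv

lemma evSpanLE_stab {m : ℕ} (h : evSpanLE T m = evSpanLE T (m + 1)) :
    ∀ k, evSpanLE T (m + k) = evSpanLE T m := by
  intro k
  induction k with
  | zero => rfl
  | succ k ih =>
    refine le_antisymm ?_ (evSpanLE_mono (by omega))
    refine Submodule.span_le.mpr ?_
    rintro _ ⟨u, hu, rfl⟩
    rcases u with _ | ⟨ℓ, u⟩
    · exact Submodule.subset_span ⟨[], by simp, rfl⟩
    · have h1 : ev T u ∈ evSpanLE T (m + k) :=
        Submodule.subset_span ⟨u, by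
          have : (ℓ :: u).length ≤ m + (k + 1) := hu
          simp only [List.length_cons] at this
          show u.length ≤ m + k
          omega, rfl⟩
      rw [ih] at h1
      have h2 := mulVec_mem_evSpanLE ℓ h1
      rw [← h] at h2
      exact h2

lemma evSpan_eq : evSpan T = evSpanLE T (Fintype.card S) := by
  classical
  set N := Fintype.card S with hN
  -- some two consecutive spans coincide
  have key : ∃ m ≤ N, evSpanLE T m = evSpanLE T (m + 1) := by
    by_contra hcon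
    push Not at hcon
    have hlt : ∀ m ≤ N, evSpanLE T m < evSpanLE T (m + 1) := fun m hm =>
      lt_of_le_of_ne (evSpanLE_mono (Nat.le_succ m)) (hcon m hm)
    have hdim : ∀ m, m ≤ N + 1 → m ≤ Module.finrank ℝ (evSpanLE T m) := by
      intro m
      induction m with
      | zero => intro _; exact Nat.zero_le _
      | succ m ih =>
        intro hm
        have h1 := ih (by omega)
        have h2 := Submodule.finrank_lt_finrank_of_lt (hlt m (by omega))
        omega
    have h1 := hdim (N + 1) le_rfl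
    have h2 := Submodule.finrank_le (evSpanLE T (N + 1))
    rw [Module.finrank_fintype_fun_eq_card] at h2
    omega
  obtain ⟨m, hm, hmm⟩ := key
  refine le_antisymm ?_ (Submodule.span_mono (by rintro _ ⟨u, _, rfl⟩; exact ⟨u, rfl⟩))
  refine Submodule.span_le.mpr ?_
  rintro _ ⟨u, rfl⟩
  have h1 : ev T u ∈ evSpanLE T (m + u.length) :=
    Submodule.subset_span ⟨u, by simp, rfl⟩
  rw [evSpanLE_stab hmm] at h1
  exact evSpanLE_mono hm h1

/-! ### The converse direction -/

lemma aff_continuous (n : ℕ) : Continuous fun p : (S → ℝ) × (S → ℝ) => aff T n p.1 p.2 := by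
  unfold aff dotProduct
  fun_prop

lemma aff_smul (n : ℕ) (α β : S → ℝ) {c d : ℝ} (hc : 0 ≤ c) (hd : 0 ≤ d) :
    aff T n (c • α) (d • β) = √(c * d) * aff T n α β := by
  unfold aff
  rw [Finset.mul_sum]
  refine Finset.sum_congr rfl fun u _ => ?_
  rw [smul_dotProduct, smul_dotProduct, smul_eq_mul, smul_eq_mul, ← Real.sqrt_mul (by positivity)]
  congr 1
  ring

lemma dot_eq_of_words (hT : IsChain T) {n : ℕ} {α β : S → ℝ}
    (h : ∀ u : Fin n → L, α ⬝ᵥ ev T (List.ofFn u) = β ⬝ᵥ ev T (List.ofFn u)) :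
    ∀ v ∈ evSpanLE T n, α ⬝ᵥ v = β ⬝ᵥ v := by
  have hlen : ∀ k, ∀ u : List L, u.length + k = n → α ⬝ᵥ ev T u = β ⬝ᵥ ev T u := by
    intro k
    induction k with
    | zero =>
      intro u hu
      have hu' : u.length = n := by simpa using hu
      subst hu'
      have := h (fun i => u.get i)
      simpa using this
    | succ k ih =>
      intro u hu
      rw [← hT.sum_ev_snoc u, dotProduct_sum, dotProduct_sum]
      refine Finset.sum_congr rfl fun ℓ _ => ih _ ?_
      simp only [List.length_append, List.length_cons, List.length_nil]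
      omega
  intro v hv
  induction hv using Submodule.span_induction with
  | mem x hx =>
    obtain ⟨u, hu, rfl⟩ := hx
    exact hlen (n - u.length) u (Nat.add_sub_of_le hu)
  | zero => simp
  | add x y _ _ hx hy => rw [dotProduct_add, dotProduct_add, hx, hy]
  | smul c x _ hx => rw [dotProduct_smul, dotProduct_smul, hx]

lemma sum_dot_ev (hT : IsChain T) (n : ℕ) (α : S → ℝ) :
    ∑ u : Fin n → L, α ⬝ᵥ ev T (List.ofFn u) = ∑ s, α s := by
  rw [← dotProduct_sum, hT.sum_ev, dotProduct_one]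

lemma aff_lt_one (hT : IsChain T) {n : ℕ} {α β : S → ℝ} (hα : α ∈ stdSimplex ℝ S)
    (hβ : β ∈ stdSimplex ℝ S) {v : S → ℝ} (hv : v ∈ evSpanLE T n) (hne : α ⬝ᵥ v ≠ β ⬝ᵥ v) :
    aff T n α β < 1 := by
  by_contra hcon
  push Not at hcon
  apply hne
  refine dot_eq_of_words hT ?_ v hv
  have ha : ∀ u : List L, 0 ≤ α ⬝ᵥ ev T u := fun u => dot_nonneg hα.1 (ev_nonneg hT.nonneg u)
  have hb : ∀ u : List L, 0 ≤ β ⬝ᵥ ev T u := fun u => dot_nonneg hβ.1 (ev_nonneg hT.nonneg u)
  have hle : ∀ u : Fin n → L, 0 ≤ (α ⬝ᵥ ev T (List.ofFn u) + β ⬝ᵥ ev T (List.ofFn u)) / 2 -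
      √((α ⬝ᵥ ev T (List.ofFn u)) * (β ⬝ᵥ ev T (List.ofFn u))) := by
    intro u
    have h1 := Real.sq_sqrt (ha (List.ofFn u))
    have h2 := Real.sq_sqrt (hb (List.ofFn u))
    rw [Real.sqrt_mul (ha _)]
    nlinarith [sq_nonneg (√(α ⬝ᵥ ev T (List.ofFn u)) - √(β ⬝ᵥ ev T (List.ofFn u)))]
  have hsum : ∑ u : Fin n → L, ((α ⬝ᵥ ev T (List.ofFn u) + β ⬝ᵥ ev T (List.ofFn u)) / 2 -
      √((α ⬝ᵥ ev T (List.ofFn u)) * (β ⬝ᵥ ev T (List.ofFn u)))) ≤ 0 := by
    rw [Finset.sum_sub_distrib, ← Finset.sum_div, Finset.sum_add_distrib, sum_dot_ev hT,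
      sum_dot_ev hT, hα.2, hβ.2]
    unfold aff at hcon
    linarith
  have hzero := (Finset.sum_eq_zero_iff_of_nonneg (fun u _ => hle u)).mp
    (le_antisymm hsum (Finset.sum_nonneg fun u _ => hle u))
  intro u
  have h0 := hzero u (Finset.mem_univ u)
  have h1 := Real.sq_sqrt (ha (List.ofFn u))
  have h2 := Real.sq_sqrt (hb (List.ofFn u))
  rw [Real.sqrt_mul (ha _)] at h0
  have h3 : (√(α ⬝ᵥ ev T (List.ofFn u)) - √(β ⬝ᵥ ev T (List.ofFn u))) ^ 2 = 0 := by
    nlinarith
  have h4 : √(α ⬝ᵥ ev T (List.ofFn u)) = √(β ⬝ᵥ ev T (List.ofFn u)) := by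
    have := pow_eq_zero_iff (two_ne_zero) |>.mp h3
    linarith
  rw [← h1, ← h2, h4]

/-- A pair of state sets is good if some vector in the span separates them. -/
def Good (T : L → Matrix S S ℝ) (S₁ S₂ : Set S) : Prop :=
  ∃ v ∈ evSpan T, ∃ c : ℝ, (∀ s ∈ S₁, c < v s) ∧ (∀ s ∈ S₂, v s < c)

lemma good_contraction (hT : IsChain T) {S₁ S₂ : Set S} (hg : Good T S₁ S₂) :
    ∃ δ > 0, ∀ α β : S → ℝ, (∀ s, 0 ≤ α s) → (∀ s, 0 ≤ β s) → (∀ s, s ∉ S₁ → α s = 0) →
      (∀ s, s ∉ S₂ → β s = 0) →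
      aff T (Fintype.card S) α β ≤ (1 - δ) * aff T 0 α β := by
  classical
  obtain ⟨v, hv, c, hc1, hc2⟩ := hg
  rw [evSpan_eq] at hv
  set N := Fintype.card S with hN
  let K₁ : Set (S → ℝ) := {α | α ∈ stdSimplex ℝ S ∧ ∀ s, s ∉ S₁ → α s = 0}
  let K₂ : Set (S → ℝ) := {β | β ∈ stdSimplex ℝ S ∧ ∀ s, s ∉ S₂ → β s = 0}
  have hK : ∀ R : Set S, IsCompact {α : S → ℝ | α ∈ stdSimplex ℝ S ∧ ∀ s, s ∉ R → α s = 0} := by
    intro R
    have h1 : {α : S → ℝ | ∀ s, s ∉ R → α s = 0} = ⋂ s, ⋂ (_ : s ∉ R), {α | α s = 0} := by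
      ext α; simp
    have h2 : IsClosed {α : S → ℝ | ∀ s, s ∉ R → α s = 0} := by
      rw [h1]
      exact isClosed_iInter fun s => isClosed_iInter fun _ =>
        isClosed_eq (continuous_apply s) continuous_const
    exact (isCompact_stdSimplex ℝ S).inter_right h2
  have hcomp : IsCompact (K₁ ×ˢ K₂) := (hK S₁).prod (hK S₂)
  have hlt : ∀ p ∈ K₁ ×ˢ K₂, aff T N p.1 p.2 < 1 := by
    rintro ⟨α, β⟩ ⟨hα', hβ'⟩
    have hα : α ∈ K₁ := hα'
    have hβ : β ∈ K₂ := hβ'
    refine aff_lt_one hT hα.1 hβ.1 hv ?_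
    have h1 : c < α ⬝ᵥ v := by
      have e1 : ∑ s, α s * c = c := by rw [← Finset.sum_mul, hα.1.2, one_mul]
      have e2 : ∃ s, 0 < α s := by
        by_contra hcon
        push Not at hcon
        have : ∑ s, α s = 0 := Finset.sum_eq_zero fun s _ => le_antisymm (hcon s) (hα.1.1 s)
        rw [hα.1.2] at this
        exact one_ne_zero this
      obtain ⟨s, hs⟩ := e2
      calc c = ∑ s, α s * c := e1.symm
        _ < ∑ s, α s * v s := by
          refine Finset.sum_lt_sum (fun t _ => ?_) ⟨s, Finset.mem_univ s, ?_⟩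
          · by_cases ht : t ∈ S₁
            · exact mul_le_mul_of_nonneg_left (hc1 t ht).le (hα.1.1 t)
            · rw [hα.2 t ht]; simp
          · have hs1 : s ∈ S₁ := by
              by_contra h
              rw [hα.2 s h] at hs
              exact lt_irrefl _ hs
            exact mul_lt_mul_of_pos_left (hc1 s hs1) hs
    have h2 : β ⬝ᵥ v < c := by
      have e1 : ∑ s, β s * c = c := by rw [← Finset.sum_mul, hβ.1.2, one_mul]
      have e2 : ∃ s, 0 < β s := by
        by_contra hcon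
        push Not at hcon
        have : ∑ s, β s = 0 := Finset.sum_eq_zero fun s _ => le_antisymm (hcon s) (hβ.1.1 s)
        rw [hβ.1.2] at this
        exact one_ne_zero this
      obtain ⟨s, hs⟩ := e2
      calc ∑ s, β s * v s < ∑ s, β s * c := by
            refine Finset.sum_lt_sum (fun t _ => ?_) ⟨s, Finset.mem_univ s, ?_⟩
            · by_cases ht : t ∈ S₂
              · exact mul_le_mul_of_nonneg_left (hc2 t ht).le (hβ.1.1 t)
              · rw [hβ.2 t ht]; simp
            · have hs1 : s ∈ S₂ := by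
                by_contra h
                rw [hβ.2 s h] at hs
                exact lt_irrefl _ hs
              exact mul_lt_mul_of_pos_left (hc2 s hs1) hs
        _ = c := e1
    exact (h2.trans h1).ne'
  -- maximum
  obtain ⟨δ, hδ, hδ'⟩ : ∃ δ > 0, ∀ p ∈ K₁ ×ˢ K₂, aff T N p.1 p.2 ≤ 1 - δ := by
    rcases (K₁ ×ˢ K₂).eq_empty_or_nonempty with he | hne
    · exact ⟨1, one_pos, by rw [he]; simp⟩
    · obtain ⟨p, hp, hmax⟩ := hcomp.exists_isMaxOn hne (aff_continuous (T := T) N).continuousOn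
      refine ⟨1 - aff T N p.1 p.2, by linarith [hlt p hp], fun q hq => ?_⟩
      have := hmax hq
      simp only [Set.mem_ofPred_eq] at this
      linarith
  refine ⟨δ, hδ, ?_⟩
  intro α β hα hβ hα1 hβ1
  have hα0 : 0 ≤ ∑ s, α s := Finset.sum_nonneg fun s _ => hα s
  have hβ0 : 0 ≤ ∑ s, β s := Finset.sum_nonneg fun s _ => hβ s
  have haff0 : aff T 0 α β = √((∑ s, α s) * ∑ s, β s) := by
    unfold aff
    simp [ev, dotProduct_one]
  rcases hα0.eq_or_lt with ha | ha
  · have : α = 0 := by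
      funext s
      exact (Finset.sum_eq_zero_iff_of_nonneg fun s _ => hα s).mp ha.symm s (Finset.mem_univ s)
    subst this
    simp [aff]
  rcases hβ0.eq_or_lt with hb | hb
  · have : β = 0 := by
      funext s
      exact (Finset.sum_eq_zero_iff_of_nonneg fun s _ => hβ s).mp hb.symm s (Finset.mem_univ s)
    subst this
    simp [aff]
  set a := ∑ s, α s with hadef
  set b := ∑ s, β s with hbdef
  have hmemα : a⁻¹ • α ∈ K₁ := by
    refine ⟨⟨fun s => ?_, ?_⟩, fun s hs => ?_⟩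
    · exact mul_nonneg (inv_nonneg.mpr hα0) (hα s)
    · simp only [Pi.smul_apply, smul_eq_mul]
      rw [← Finset.mul_sum, ← hadef, inv_mul_cancel₀ ha.ne']
    · simp [hα1 s hs]
  have hmemβ : b⁻¹ • β ∈ K₂ := by
    refine ⟨⟨fun s => ?_, ?_⟩, fun s hs => ?_⟩
    · exact mul_nonneg (inv_nonneg.mpr hβ0) (hβ s)
    · simp only [Pi.smul_apply, smul_eq_mul]
      rw [← Finset.mul_sum, ← hbdef, inv_mul_cancel₀ hb.ne']
    · simp [hβ1 s hs]
  have h1 := hδ' (a⁻¹ • α, b⁻¹ • β) ⟨hmemα, hmemβ⟩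
  have h2 : aff T N α β = √(a * b) * aff T N (a⁻¹ • α) (b⁻¹ • β) := by
    rw [← aff_smul N _ _ hα0 hβ0, smul_inv_smul₀ ha.ne', smul_inv_smul₀ hb.ne']
  rw [h2, haff0, mul_comm (1 - δ)]
  exact mul_le_mul_of_nonneg_left h1 (Real.sqrt_nonneg _)

/-- The support of a vector. -/
def supp (α : S → ℝ) : Set S := {s | 0 < α s}

/-- If all reachable support pairs are good, the overlap tends to zero. -/
lemma ov_tendsto_zero (hT : IsChain T) {α β : S → ℝ} (hα : ∀ s, 0 ≤ α s) (hβ : ∀ s, 0 ≤ β s)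
    (h : ∀ w, Good T (supp (act T w α)) (supp (act T w β))) :
    ∀ ε > 0, ∃ n, ov T n α β < ε := by
  classical
  set N := Fintype.card S with hN
  -- a uniform contraction constant
  obtain ⟨δ, hδ0, hδ⟩ : ∃ δ > 0, ∀ S₁ S₂ : Set S, Good T S₁ S₂ → ∀ α β : S → ℝ,
      (∀ s, 0 ≤ α s) → (∀ s, 0 ≤ β s) → (∀ s, s ∉ S₁ → α s = 0) → (∀ s, s ∉ S₂ → β s = 0) →
      aff T N α β ≤ (1 - δ) * aff T 0 α β := by
    have h1 : ∀ p : Set S × Set S, ∃ δ > 0, Good T p.1 p.2 → ∀ α β : S → ℝ,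
        (∀ s, 0 ≤ α s) → (∀ s, 0 ≤ β s) → (∀ s, s ∉ p.1 → α s = 0) → (∀ s, s ∉ p.2 → β s = 0) →
        aff T N α β ≤ (1 - δ) * aff T 0 α β := by
      intro p
      by_cases hp : Good T p.1 p.2
      · obtain ⟨δ, hδ, h⟩ := good_contraction hT hp
        exact ⟨δ, hδ, fun _ => h⟩
      · exact ⟨1, one_pos, fun h => absurd h hp⟩
    choose f hf0 hf using h1
    obtain ⟨p, hp⟩ := Finite.exists_min f
    refine ⟨f p, hf0 p, fun S₁ S₂ hg α β ha hb ha' hb' => ?_⟩
    refine (hf (S₁, S₂) hg α β ha hb ha' hb').trans ?_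
    exact mul_le_mul_of_nonneg_right (by linarith [hp (S₁, S₂)]) (aff_nonneg _ _ _)
  -- contraction over all times
  have hstep : ∀ n, ∀ α β : S → ℝ, (∀ s, 0 ≤ α s) → (∀ s, 0 ≤ β s) →
      (∀ w, Good T (supp (act T w α)) (supp (act T w β))) →
      aff T (n + N) α β ≤ (1 - δ) * aff T n α β := by
    intro n
    induction n with
    | zero =>
      intro α β ha hb hg
      rw [zero_add]
      refine hδ _ _ (hg []) α β ha hb ?_ ?_
      · intro s hs
        exact le_antisymm (not_lt.mp hs) (ha s)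
      · intro s hs
        exact le_antisymm (not_lt.mp hs) (hb s)
    | succ n ih =>
      intro α β ha hb hg
      rw [show n + 1 + N = (n + N) + 1 by omega, aff_succ, aff_succ, Finset.mul_sum]
      refine Finset.sum_le_sum fun ℓ _ => ?_
      exact ih _ _ (vecMul_nonneg (hT.nonneg ℓ) ha) (vecMul_nonneg (hT.nonneg ℓ) hb)
        fun w => hg (ℓ :: w)
  have hpow : ∀ j : ℕ, aff T (j * N) α β ≤ (max (1 - δ) 0) ^ j * aff T 0 α β := by
    intro j
    induction j with
    | zero => simp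
    | succ j ih =>
      have h1 := hstep (j * N) α β hα hβ h
      rw [Nat.succ_mul]
      calc aff T (j * N + N) α β ≤ (1 - δ) * aff T (j * N) α β := h1
        _ ≤ max (1 - δ) 0 * aff T (j * N) α β :=
          mul_le_mul_of_nonneg_right (le_max_left _ _) (aff_nonneg _ _ _)
        _ ≤ max (1 - δ) 0 * ((max (1 - δ) 0) ^ j * aff T 0 α β) :=
          mul_le_mul_of_nonneg_left ih (le_max_right _ _)
        _ = _ := by ring
  intro ε hε
  have hr : max (1 - δ) 0 < 1 := max_lt (by linarith) one_pos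
  have hlim : Filter.Tendsto (fun j : ℕ => (max (1 - δ) 0) ^ j * aff T 0 α β) Filter.atTop
      (nhds 0) := by
    simpa using (tendsto_pow_atTop_nhds_zero_of_lt_one (le_max_right _ _) hr).mul_const
      (aff T 0 α β)
  obtain ⟨j, hj⟩ := ((tendsto_order.mp hlim).2 ε hε).exists
  exact ⟨j * N, lt_of_le_of_lt (ov_le_aff hT _ hα hβ) (lt_of_le_of_lt (hpow j) hj)⟩

end

end Pool.Agent.H83
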