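import Mathlib

/-!
# Linear systems with polynomial entries: solvability on a box gives generic solvability
-/

namespace Pool.Agent.H83

open Matrix MvPolynomial

set_option linter.unusedSectionVars false

lemma det_col_comb {n U : Type*} [Fintype n] [DecidableEq n] [Fintype U] (M : Matrix n n ℝ) (j : n)
    (w : U → n → ℝ) (c : U → ℝ) (hcol : ∀ k, M k j = ∑ u, c u * w u k)
    (hz : ∀ u, (M.updateCol j (w u)).det = 0) : M.det = 0 := by
  classical
  have h1 : M = M.updateCol j (∑ u, c u • w u) := by
    ext k l
    by_cases hl : l = j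
    · subst hl
      rw [updateCol_self, hcol, Finset.sum_apply]
      rfl
    · rw [updateCol_ne hl]
  rw [h1, ← det_transpose, ← updateRow_transpose]
  have h2 := (detRowAlternating : (n → ℝ) [⋀^n]→ₗ[ℝ] ℝ).map_update_sum Finset.univ j
    (fun u => c u • w u) Mᵀ
  have h3 : (Mᵀ.updateRow j (∑ u, c u • w u)).det = ∑ u, (Mᵀ.updateRow j (c u • w u)).det := h2
  rw [h3]
  refine Finset.sum_eq_zero fun u _ => ?_
  rw [det_updateRow_smul, updateRow_transpose, det_transpose, hz u, mul_zero]

variable {ι B U : Type} [Fintype ι] [Fintype B] [Fintype U]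

/-- Some `r × r` minor (with possibly repeated indices) is a nonzero polynomial. -/
def HasMinor (A : Matrix B U (MvPolynomial ι ℝ)) (r : ℕ) : Prop :=
  ∃ (I : Fin r → B) (J : Fin r → U), (A.submatrix I J).det ≠ 0

lemma hasMinor_zero (A : Matrix B U (MvPolynomial ι ℝ)) : HasMinor A 0 :=
  ⟨Fin.elim0, Fin.elim0, by simp⟩

lemma HasMinor.le_card {A : Matrix B U (MvPolynomial ι ℝ)} {r : ℕ} (h : HasMinor A r) :
    r ≤ Fintype.card B := by
  obtain ⟨I, J, hIJ⟩ := h
  by_contra hcon
  push Not at hcon
  have : ¬ Function.Injective I := by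
    intro hinj
    have := Fintype.card_le_of_injective I hinj
    simp at this
    omega
  rw [Function.not_injective_iff] at this
  obtain ⟨a, b, hab, hne⟩ := this
  exact hIJ (det_zero_of_row_eq hne (by funext k; simp [hab]))

lemma exists_max_minor (A : Matrix B U (MvPolynomial ι ℝ)) :
    ∃ r, HasMinor A r ∧ ¬ HasMinor A (r + 1) := by
  classical
  refine ⟨Nat.findGreatest (HasMinor A) (Fintype.card B),
    Nat.findGreatest_spec (P := HasMinor A) (Nat.zero_le _) (hasMinor_zero A), ?_⟩
  intro h
  exact Nat.findGreatest_is_greatest (P := HasMinor A) (Nat.lt_succ_self _) h.le_card h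

lemma totalDegree_det_le {r : ℕ} (M : Matrix (Fin r) (Fin r) (MvPolynomial ι ℝ)) (d : ℕ)
    (hd : ∀ i j, (M i j).totalDegree ≤ d) : M.det.totalDegree ≤ r * d := by
  rw [det_apply]
  refine totalDegree_finsetSum_le fun σ _ => ?_
  have h1 : (∏ i, M (σ i) i).totalDegree ≤ r * d := by
    refine (totalDegree_finsetProd _ _).trans ?_
    refine (Finset.sum_le_sum fun i _ => hd (σ i) i).trans ?_
    simp
  rcases Int.units_eq_one_or (Equiv.Perm.sign σ) with h | h
  · rw [h, one_smul]; exact h1
  · rw [h]
    simpa using h1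

/-- If a linear system with polynomial coefficients and constant right-hand side is solvable at all
points of a box, it is solvable at every point where a suitable nonzero polynomial of small degree
does not vanish. -/
theorem generic_solvable (A : Matrix B U (MvPolynomial ι ℝ)) (b : B → ℝ) (s : ι → Set ℝ)
    (hs : ∀ i, (s i).Infinite) (d : ℕ) (hd : ∀ i j, (A i j).totalDegree ≤ d)
    (h : ∀ x ∈ Set.pi Set.univ s, ∃ c : U → ℝ, (A.map (eval x)) *ᵥ c = b) :
    ∃ D : MvPolynomial ι ℝ, D ≠ 0 ∧ D.totalDegree ≤ Fintype.card B * d ∧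
      ∀ x, eval x D ≠ 0 → ∃ c : U → ℝ, (A.map (eval x)) *ᵥ c = b := by
  classical
  obtain ⟨r, ⟨I, J, hIJ⟩, hmax⟩ := exists_max_minor A
  have hr : r ≤ Fintype.card B := HasMinor.le_card ⟨I, J, hIJ⟩
  refine ⟨(A.submatrix I J).det, hIJ, ?_, ?_⟩
  · refine (totalDegree_det_le _ d fun i j => hd _ _).trans ?_
    exact Nat.mul_le_mul_right d hr
  -- all larger minors vanish
  have hzero : ∀ (I' : Unit ⊕ Fin r → B) (J' : Unit ⊕ Fin r → U), (A.submatrix I' J').det = 0 := by
    intro I' J'
    by_contra hne
    apply hmax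
    let e : Fin (r + 1) ≃ Unit ⊕ Fin r := Fintype.equivOfCardEq (by simp [add_comm])
    refine ⟨I' ∘ e, J' ∘ e, ?_⟩
    have : A.submatrix (I' ∘ e) (J' ∘ e) = (A.submatrix I' J').submatrix e e := rfl
    rw [this, det_submatrix_equiv_self]
    exact hne
  -- the bordered minors vanish
  let M : B → Matrix (Unit ⊕ Fin r) (Unit ⊕ Fin r) (MvPolynomial ι ℝ) := fun i =>
    fromBlocks (of fun _ _ => C (b i)) (of fun _ m => A i (J m)) (of fun m _ => C (b (I m)))
      (A.submatrix I J)
  have hM : ∀ i, (M i).det = 0 := by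
    intro i
    refine funext_set (p := (M i).det) (q := 0) s hs fun x hx => ?_
    rw [map_zero]
    obtain ⟨c, hc⟩ := h x hx
    rw [RingHom.map_det]
    refine det_col_comb _ (Sum.inl ()) (fun u k => eval x (A (Sum.elim (fun _ => i) I k) u)) c ?_ ?_
    · intro k
      have hk : ∀ l : B, b l = ∑ u, c u * eval x (A l u) := by
        intro l
        rw [← hc]
        simp only [mulVec, dotProduct, map_apply]
        exact Finset.sum_congr rfl fun u _ => mul_comm _ _
      rcases k with _ | m
      · simp [M, hk i]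
      · simp [M, hk (I m)]
    · intro u
      have h1 := hzero (Sum.elim (fun _ => i) I) (Sum.elim (fun _ => u) J)
      have h2 := congrArg (eval x) h1
      rw [map_zero, RingHom.map_det] at h2
      rw [← h2]
      congr 1
      ext k l
      rcases l with _ | m
      · rw [updateCol_self]
        simp
      · rw [updateCol_ne (by simp)]
        rcases k with _ | k
        · simp [M]
        · simp [M]
  intro x hx
  -- solve on the rows `I`
  have hdet : ((A.submatrix I J).map (eval x)).det = eval x (A.submatrix I J).det := by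
    rw [RingHom.map_det]; rfl
  set N : Matrix (Fin r) (Fin r) ℝ := (A.submatrix I J).map (eval x) with hN
  have hNu : IsUnit N.det := by
    rw [hdet]; exact isUnit_iff_ne_zero.mpr hx
  let y : Fin r → ℝ := N⁻¹ *ᵥ (fun m => b (I m))
  refine ⟨fun u => ∑ m ∈ Finset.univ.filter (fun m => J m = u), y m, ?_⟩
  have hsolve : ∀ i, ∑ m, eval x (A i (J m)) * y m = b i := by
    intro i
    have h1 := congrArg (eval x) (hM i)
    rw [map_zero, RingHom.map_det] at h1
    have h2 : (eval x).mapMatrix (M i) = fromBlocks (of fun _ _ => b i)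
        (of fun _ m => eval x (A i (J m))) (of fun m _ => b (I m)) N := by
      ext k l
      rcases k with _ | k <;> rcases l with _ | l <;> simp [M, N]
    rw [h2] at h1
    let _ : Invertible N := N.invertibleOfIsUnitDet hNu
    rw [det_fromBlocks₂₂] at h1
    have h3 := (mul_eq_zero.mp h1).resolve_left hNu.ne_zero
    rw [det_unique, invOf_eq_nonsing_inv] at h3
    rw [Matrix.sub_apply] at h3
    simp only [of_apply] at h3
    rw [Matrix.mul_assoc] at h3
    have h4 : ((of fun (_ : Unit) m => eval x (A i (J m))) * (N⁻¹ * (of fun m (_ : Unit) => b (I m))))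
        default default = ∑ m, eval x (A i (J m)) * y m := by
      simp only [Matrix.mul_apply, of_apply, y, mulVec, dotProduct]
    rw [h4] at h3
    linarith
  ext i
  rw [← hsolve i]
  simp only [mulVec, dotProduct, map_apply]
  rw [← Finset.sum_fiberwise Finset.univ J (fun m => eval x (A i (J m)) * y m)]
  refine Finset.sum_congr rfl fun u _ => ?_
  rw [Finset.mul_sum]
  refine Finset.sum_congr rfl fun m hm => ?_
  rw [(Finset.mem_filter.mp hm).2]

end Pool.Agent.H83
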