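import Mathlib
import Pool.Agent.H83.LMDPDefs
import Pool.Agent.H83.Chain

/-!
# The law of the label sequence and the overlap
-/

namespace Pool.Agent.H83

open MeasureTheory ProbabilityTheory Matrix

set_option linter.unusedSectionVars false

section

variable {S A L : Type} [Fintype S] [Fintype L]

/-- The transition matrices of the labelled Markov chain induced by a strategy. -/
def LMDP.mat (M : LMDP S A L) (σ : Strategy M) : L → Matrix S S ℝ :=
  fun ℓ => Matrix.of fun s t => M.step σ s (ℓ, t)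

lemma LMDP.isChain (M : LMDP S A L) (σ : Strategy M) : IsChain (M.mat σ) where
  nonneg := fun ℓ s t => M.step_nonneg σ s (ℓ, t)
  sum_one := fun s => by
    have := M.sum_step σ s
    rwa [Fintype.sum_prod_type] at this

end

variable {S A L : Type} [Fintype S] [Fintype L]
  [MeasurableSpace S] [DiscreteMeasurableSpace S]
  [MeasurableSpace L] [DiscreteMeasurableSpace L]

lemma stepLaw_apply (M : LMDP S A L) (σ : Strategy M) (s : S) (ℓ : L) (t : S) :
    M.stepLaw σ s {(ℓ, t)} = ENNReal.ofReal (M.mat σ ℓ s t) := by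
  classical
  unfold LMDP.stepLaw
  simp only [Measure.coe_finsetSum, Finset.sum_apply, Measure.smul_apply, smul_eq_mul,
    MeasurableSet.singleton, Measure.dirac_apply']
  rw [Finset.sum_eq_single (ℓ, t)]
  · simp [LMDP.mat]
  · intro p _ hp
    simp [Set.indicator_of_notMem (show p ∉ ({(ℓ, t)} : Set (L × S)) from hp)]
  · simp

lemma isProb_init (M : LMDP S A L) (σ : Strategy M) {μ : S → ℝ} (hμ : IsDist μ) :
    IsProbabilityMeasure (∑ s, ENNReal.ofReal (μ s) • M.stepLaw σ s) := by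
  constructor
  simp only [Measure.coe_finsetSum, Finset.sum_apply, Measure.smul_apply, measure_univ,
    smul_eq_mul, mul_one]
  rw [← ENNReal.ofReal_sum_of_nonneg fun p _ => hμ.nonneg p, hμ.sum_one, ENNReal.ofReal_one]

/-- The event that the labels up to time `n` spell `w` and the state after time `n` is `t`. -/
def cyl (n : ℕ) (w : List L) (t : S) : Set (ℕ → L × S) :=
  {z | (List.ofFn fun i : Fin (n + 1) => (z i).1) = w ∧ (z n).2 = t}

/-- The same event in terms of histories. -/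
def hcyl (n : ℕ) (w : List L) (t : S) : Set ((i : Finset.Iic n) → (fun _ : ℕ => L × S) i) :=
  {h | (List.ofFn fun i : Fin (n + 1) => (h ⟨i, Finset.mem_Iic.mpr (Nat.lt_succ_iff.mp i.2)⟩).1) = w ∧
    (h ⟨n, Finset.mem_Iic.mpr le_rfl⟩).2 = t}

lemma cyl_eq (n : ℕ) (w : List L) (t : S) :
    cyl n w t = Preorder.frestrictLe n ⁻¹' hcyl n w t := rfl

lemma map_init (M : LMDP S A L) (σ : Strategy M) {μ : S → ℝ} (hμ : IsDist μ) :
    (M.pathLaw σ μ).map (fun z => z 0) = ∑ s, ENNReal.ofReal (μ s) • M.stepLaw σ s := by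
  have := isProb_init M σ hμ
  set m := ∑ s, ENNReal.ofReal (μ s) • M.stepLaw σ s with hm
  have h1 : (M.pathLaw σ μ).map (Preorder.frestrictLe (π := fun _ => L × S) 0) =
      m.map (MeasurableEquiv.piUnique fun i : Finset.Iic 0 => (fun _ : ℕ => L × S) i).symm := by
    unfold LMDP.pathLaw Kernel.trajMeasure
    rw [Measure.map_comp _ _ (by fun_prop), Kernel.traj_map_frestrictLe, Kernel.partialTraj_self]
    simp
    rfl
  have h2 : (fun z : ℕ → L × S => z 0) =
      (fun h : (i : Finset.Iic 0) → (fun _ : ℕ => L × S) i => h ⟨0, Finset.mem_Iic.mpr le_rfl⟩) ∘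
        (Preorder.frestrictLe (π := fun _ => L × S) 0) := rfl
  rw [h2, ← Measure.map_map (by fun_prop) (by fun_prop), h1, Measure.map_map (by fun_prop) (by fun_prop)]
  have h3 : (fun h : (i : Finset.Iic 0) → (fun _ : ℕ => L × S) i => h ⟨0, Finset.mem_Iic.mpr le_rfl⟩) ∘
      (MeasurableEquiv.piUnique fun i : Finset.Iic 0 => (fun _ : ℕ => L × S) i).symm = id := by
    funext x
    rfl
  rw [h3, Measure.map_id]

lemma isProb_pathLaw (M : LMDP S A L) (σ : Strategy M) {μ : S → ℝ} (hμ : IsDist μ) :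
    IsProbabilityMeasure (M.pathLaw σ μ) := by
  have := isProb_init M σ hμ
  unfold LMDP.pathLaw
  infer_instance

lemma measurableSet_hist (n : ℕ) (E : Set ((i : Finset.Iic n) → (fun _ : ℕ => L × S) i)) :
    MeasurableSet E := MeasurableSet.of_discrete

lemma ofFn_snoc (n : ℕ) (f : ℕ → L) (w : List L) (ℓ : L) :
    (List.ofFn fun i : Fin (n + 1) => f i) = w ++ [ℓ] ↔
      (List.ofFn fun i : Fin n => f i) = w ∧ f n = ℓ := by
  rw [List.ofFn_succ']
  simp [List.concat_eq_append]

lemma pathLaw_cyl (M : LMDP S A L) (σ : Strategy M) {μ : S → ℝ} (hμ : IsDist μ) (n : ℕ) :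
    ∀ (w : List L) (_ : w.length = n + 1) (t : S),
    M.pathLaw σ μ (cyl n w t) = ENNReal.ofReal (act (M.mat σ) w μ t) := by
  classical
  have hinit := isProb_init M σ hμ
  have hprob := isProb_pathLaw M σ hμ
  induction n with
  | zero =>
    intro w hw t
    obtain ⟨ℓ, rfl⟩ := List.length_eq_one_iff.mp hw
    have h1 : cyl 0 [ℓ] t = (fun z : ℕ → L × S => z 0) ⁻¹' {(ℓ, t)} := by
      ext z
      simp [cyl, Prod.ext_iff]
    rw [h1, ← Measure.map_apply (by fun_prop) (MeasurableSet.singleton _), map_init M σ hμ]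
    simp only [Measure.coe_finsetSum, Finset.sum_apply, Measure.smul_apply, smul_eq_mul,
      stepLaw_apply, act]
    have h2 : (μ ᵥ* M.mat σ ℓ) t = ∑ s, μ s * M.mat σ ℓ s t := rfl
    rw [h2, ENNReal.ofReal_sum_of_nonneg fun s _ =>
      mul_nonneg (hμ.nonneg s) ((M.isChain σ).nonneg ℓ s t)]
    refine Finset.sum_congr rfl fun s _ => ?_
    rw [ENNReal.ofReal_mul (hμ.nonneg s)]
  | succ n ih =>
    intro w hw t
    obtain ⟨w', ℓ, rfl⟩ : ∃ w' ℓ, w = w' ++ [ℓ] := by
      rcases List.eq_nil_or_concat w with h | ⟨w', ℓ, h⟩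
      · rw [h] at hw; simp at hw
      · exact ⟨w', ℓ, by rw [h]; simp⟩
    have hw' : w'.length = n + 1 := by simpa using hw
    -- decompose according to the previous state
    have hdec : cyl (n + 1) (w' ++ [ℓ]) t = ⋃ s : S,
        (fun z : ℕ → L × S => (Preorder.frestrictLe (π := fun _ => L × S) n z, z (n + 1))) ⁻¹'
          (hcyl n w' s ×ˢ {(ℓ, t)}) := by
      ext z
      simp only [cyl, hcyl, Set.mem_ofPred_eq, Set.mem_iUnion, Set.mem_preimage, Set.mem_prod,
        Set.mem_singleton_iff]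
      rw [ofFn_snoc (n + 1) (fun i => (z i).1) w' ℓ]
      constructor
      · rintro ⟨⟨h1, h2⟩, h3⟩
        exact ⟨(z n).2, ⟨h1, rfl⟩, Prod.ext h2 h3⟩
      · rintro ⟨s, ⟨h1, h2⟩, h3⟩
        exact ⟨⟨h1, by rw [h3]⟩, by rw [h3]⟩
    have hmeas : Measurable (fun z : ℕ → L × S =>
        (Preorder.frestrictLe (π := fun _ => L × S) n z, z (n + 1))) := by fun_prop
    have hpart : ∀ s : S, M.pathLaw σ μ ((fun z : ℕ → L × S =>
        (Preorder.frestrictLe (π := fun _ => L × S) n z, z (n + 1))) ⁻¹'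
          (hcyl n w' s ×ˢ {(ℓ, t)})) =
        ENNReal.ofReal (act (M.mat σ) w' μ s * M.mat σ ℓ s t) := by
      intro s
      have h1 : (M.pathLaw σ μ).map (Preorder.frestrictLe (π := fun _ => L × S) n) ⊗ₘ M.kernel σ n =
          (M.pathLaw σ μ).map (fun x => (Preorder.frestrictLe (π := fun _ => L × S) n x, x (n + 1))) :=
        Kernel.map_frestrictLe_trajMeasure_compProd_eq_map_trajMeasure
      have hE : MeasurableSet (hcyl n w' s) := measurableSet_hist n _
      rw [← Measure.map_apply hmeas (hE.prod (MeasurableSet.singleton _)), ← h1,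
        Measure.compProd_apply_prod hE (MeasurableSet.singleton _)]
      have h2 : ∫⁻ h in hcyl n w' s, M.kernel σ n h {(ℓ, t)}
          ∂(M.pathLaw σ μ).map (Preorder.frestrictLe (π := fun _ => L × S) n) =
          ∫⁻ _h in hcyl n w' s, ENNReal.ofReal (M.mat σ ℓ s t)
          ∂(M.pathLaw σ μ).map (Preorder.frestrictLe (π := fun _ => L × S) n) := by
        refine setLIntegral_congr_fun hE ?_
        intro h hh
        have h3 : M.kernel σ n h = M.stepLaw σ (h ⟨n, Finset.mem_Iic.mpr le_rfl⟩).2 := rfl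
        simp only [h3]
        rw [hh.2, stepLaw_apply]
      rw [h2, setLIntegral_const, Measure.map_apply (by fun_prop) hE, ← cyl_eq, ih w' hw' s,
        mul_comm, ENNReal.ofReal_mul (act_nonneg (M.isChain σ).nonneg _ hμ.nonneg s)]
    rw [hdec, measure_iUnion]
    · rw [tsum_fintype, Finset.sum_congr rfl fun s _ => hpart s,
        ← ENNReal.ofReal_sum_of_nonneg fun s _ => mul_nonneg
          (act_nonneg (M.isChain σ).nonneg _ hμ.nonneg s) ((M.isChain σ).nonneg ℓ s t),
        act_append]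
      rfl
    · intro s s' hss
      refine Disjoint.preimage _ ?_
      rw [Set.disjoint_left]
      rintro ⟨h, p⟩ h1 h2
      exact hss (h1.1.2.symm.trans h2.1.2)
    · intro s
      exact hmeas ((measurableSet_hist n _).prod (MeasurableSet.singleton _))

lemma labelLaw_cyl (M : LMDP S A L) (σ : Strategy M) {μ : S → ℝ} (hμ : IsDist μ) (n : ℕ)
    (u : Fin n → L) :
    M.labelLaw σ μ {x | (fun i : Fin n => x i) = u} =
      ENNReal.ofReal (μ ⬝ᵥ ev (M.mat σ) (List.ofFn u)) := by
  classical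
  have hprob := isProb_pathLaw M σ hμ
  rcases n with _ | n
  · have h1 : {x : ℕ → L | (fun i : Fin 0 => x i) = u} = Set.univ := by
      ext x
      simp only [Set.mem_ofPred_eq, Set.mem_univ, iff_true]
      funext i
      exact i.elim0
    rw [h1]
    unfold LMDP.labelLaw
    rw [Measure.map_apply (by fun_prop) MeasurableSet.univ]
    simp [ev, dotProduct_one, hμ.sum_one]
  · have hms : MeasurableSet {x : ℕ → L | (fun i : Fin (n + 1) => x i) = u} := by
      have : Measurable (fun (x : ℕ → L) (i : Fin (n + 1)) => x i) := by fun_prop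
      exact this (MeasurableSet.of_discrete (s := {u}))
    unfold LMDP.labelLaw
    rw [Measure.map_apply (by fun_prop) hms]
    have h1 : (fun (z : ℕ → L × S) (n : ℕ) => (z n).1) ⁻¹'
        {x : ℕ → L | (fun i : Fin (n + 1) => x i) = u} = ⋃ t : S, cyl n (List.ofFn u) t := by
      ext z
      simp only [Set.mem_preimage, Set.mem_ofPred_eq, Set.mem_iUnion, cyl]
      constructor
      · intro h
        exact ⟨(z n).2, by rw [← h], rfl⟩
      · rintro ⟨t, h, _⟩
        exact List.ofFn_injective h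
    rw [h1, measure_iUnion]
    · rw [tsum_fintype, Finset.sum_congr rfl fun t _ => pathLaw_cyl M σ hμ n (List.ofFn u)
        (by simp) t, ← ENNReal.ofReal_sum_of_nonneg fun t _ =>
          act_nonneg (M.isChain σ).nonneg _ hμ.nonneg t]
      congr 1
      have := act_dot_ev (M.mat σ) (List.ofFn u) [] μ
      rw [List.append_nil] at this
      rw [← this]
      simp [ev, dotProduct_one]
    · intro s s' hss
      rw [Function.onFun, Set.disjoint_left]
      intro z h1 h2
      exact hss (h1.2.symm.trans h2.2)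
    · intro t
      rw [cyl_eq]
      have : Measurable (Preorder.frestrictLe (π := fun _ => L × S) n) := by fun_prop
      exact this (measurableSet_hist n _)

lemma isProb_labelLaw (M : LMDP S A L) (σ : Strategy M) {μ : S → ℝ} (hμ : IsDist μ) :
    IsProbabilityMeasure (M.labelLaw σ μ) := by
  have := isProb_pathLaw M σ hμ
  unfold LMDP.labelLaw
  have hm : Measurable (fun (z : ℕ → L × S) n => (z n).1) := by fun_prop
  exact Measure.isProbabilityMeasure_map hm.aemeasurable

/-- Probability of an event depending on the first `n` labels only. -/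
lemma labelLaw_fin (M : LMDP S A L) (σ : Strategy M) {μ : S → ℝ} (hμ : IsDist μ) (n : ℕ)
    (E : Finset (Fin n → L)) :
    (M.labelLaw σ μ).real {x | (fun i : Fin n => x i) ∈ E} =
      ∑ u ∈ E, μ ⬝ᵥ ev (M.mat σ) (List.ofFn u) := by
  classical
  have hprob := isProb_labelLaw M σ hμ
  have hr : Measurable (fun (x : ℕ → L) (i : Fin n) => x i) := by fun_prop
  have h1 : {x : ℕ → L | (fun i : Fin n => x i) ∈ E} =
      ⋃ u ∈ E, {x : ℕ → L | (fun i : Fin n => x i) = u} := by
    ext x; simp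
  rw [h1, measureReal_def, measure_biUnion_finset]
  · rw [ENNReal.toReal_sum (fun u _ => measure_ne_top _ _)]
    refine Finset.sum_congr rfl fun u _ => ?_
    rw [labelLaw_cyl M σ hμ, ENNReal.toReal_ofReal]
    exact dot_nonneg hμ.nonneg (ev_nonneg (M.isChain σ).nonneg _)
  · intro u _ v _ huv
    rw [Function.onFun, Set.disjoint_left]
    intro x h1 h2
    exact huv (h1.symm.trans h2)
  · intro u _
    exact hr (MeasurableSet.of_discrete (s := {u}))

lemma tv_bound {Ω : Type} [MeasurableSpace Ω] (P Q : Measure Ω) [IsProbabilityMeasure P]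
    [IsProbabilityMeasure Q] (E : Set Ω) : |P.real E - Q.real E| ≤ 1 := by
  have h1 : 0 ≤ P.real E := measureReal_nonneg
  have h2 : 0 ≤ Q.real E := measureReal_nonneg
  have h3 : P.real E ≤ 1 := measureReal_le_one
  have h4 : Q.real E ≤ 1 := measureReal_le_one
  rw [abs_le]
  constructor <;> linarith

lemma tv_bddAbove {Ω : Type} [MeasurableSpace Ω] (P Q : Measure Ω) [IsProbabilityMeasure P]
    [IsProbabilityMeasure Q] :
    BddAbove {r | ∃ E, MeasurableSet E ∧ r = |P.real E - Q.real E|} :=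
  ⟨1, by rintro _ ⟨E, -, rfl⟩; exact tv_bound P Q E⟩

lemma tvDist_le_one {Ω : Type} [MeasurableSpace Ω] (P Q : Measure Ω) [IsProbabilityMeasure P]
    [IsProbabilityMeasure Q] : tvDist P Q ≤ 1 :=
  csSup_le ⟨_, ∅, MeasurableSet.empty, rfl⟩ (by rintro _ ⟨E, -, rfl⟩; exact tv_bound P Q E)

lemma sum_all (M : LMDP S A L) (σ : Strategy M) {μ : S → ℝ} (hμ : IsDist μ) (n : ℕ) :
    ∑ u : Fin n → L, μ ⬝ᵥ ev (M.mat σ) (List.ofFn u) = 1 := by
  rw [sum_dot_ev (M.isChain σ), hμ.sum_one]

/-- Vanishing overlap gives total variation distance one. -/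
lemma tvDist_eq_one_of_ov (M : LMDP S A L) (σ : Strategy M) {μ ν : S → ℝ} (hμ : IsDist μ)
    (hν : IsDist ν) (h : ∀ ε > 0, ∃ n, ov (M.mat σ) n μ ν < ε) :
    tvDist (M.labelLaw σ μ) (M.labelLaw σ ν) = 1 := by
  classical
  have hP := isProb_labelLaw M σ hμ
  have hQ := isProb_labelLaw M σ hν
  refine le_antisymm (tvDist_le_one _ _) ?_
  refine le_of_forall_pos_lt_add fun ε hε => ?_
  obtain ⟨n, hn⟩ := h ε hε
  let E : Finset (Fin n → L) := Finset.univ.filter fun u =>
    ν ⬝ᵥ ev (M.mat σ) (List.ofFn u) ≤ μ ⬝ᵥ ev (M.mat σ) (List.ofFn u)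
  have hr : Measurable (fun (x : ℕ → L) (i : Fin n) => x i) := by fun_prop
  have hE : MeasurableSet {x : ℕ → L | (fun i : Fin n => x i) ∈ E} :=
    hr (MeasurableSet.of_discrete (s := {u | u ∈ E}))
  have h1 : (M.labelLaw σ μ).real {x | (fun i : Fin n => x i) ∈ E} -
      (M.labelLaw σ ν).real {x | (fun i : Fin n => x i) ∈ E} = 1 - ov (M.mat σ) n μ ν := by
    rw [labelLaw_fin M σ hμ, labelLaw_fin M σ hν]
    have h2 := sum_all M σ hμ n
    rw [← Finset.sum_filter_add_sum_filter_not Finset.univ (fun u : Fin n → L =>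
      ν ⬝ᵥ ev (M.mat σ) (List.ofFn u) ≤ μ ⬝ᵥ ev (M.mat σ) (List.ofFn u))] at h2
    have h3 : ov (M.mat σ) n μ ν = ∑ u ∈ E, ν ⬝ᵥ ev (M.mat σ) (List.ofFn u) +
        ∑ u ∈ Finset.univ.filter (fun u : Fin n → L =>
          ¬ ν ⬝ᵥ ev (M.mat σ) (List.ofFn u) ≤ μ ⬝ᵥ ev (M.mat σ) (List.ofFn u)),
          μ ⬝ᵥ ev (M.mat σ) (List.ofFn u) := by
      unfold ov
      rw [← Finset.sum_filter_add_sum_filter_not Finset.univ (fun u : Fin n → L =>
        ν ⬝ᵥ ev (M.mat σ) (List.ofFn u) ≤ μ ⬝ᵥ ev (M.mat σ) (List.ofFn u))]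
      congr 1
      · refine Finset.sum_congr rfl fun u hu => ?_
        rw [min_eq_right (Finset.mem_filter.mp hu).2]
      · refine Finset.sum_congr rfl fun u hu => ?_
        rw [min_eq_left (le_of_lt (not_le.mp (Finset.mem_filter.mp hu).2))]
    rw [h3]
    linarith
  have h4 : 1 - ov (M.mat σ) n μ ν ≤ tvDist (M.labelLaw σ μ) (M.labelLaw σ ν) := by
    rw [← h1]
    refine (le_abs_self _).trans ?_
    exact le_csSup (tv_bddAbove _ _) ⟨_, hE, rfl⟩
  linarith

/-- Total variation distance one gives vanishing overlap. -/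
lemma ov_of_tvDist_eq_one (M : LMDP S A L) (σ : Strategy M) {μ ν : S → ℝ} (hμ : IsDist μ)
    (hν : IsDist ν) (h : tvDist (M.labelLaw σ μ) (M.labelLaw σ ν) = 1) :
    ∀ ε > 0, ∃ n, ov (M.mat σ) n μ ν < ε := by
  classical
  have hP := isProb_labelLaw M σ hμ
  have hQ := isProb_labelLaw M σ hν
  set P := M.labelLaw σ μ with hPdef
  set Q := M.labelLaw σ ν with hQdef
  intro ε hε
  -- a nearly separating measurable set
  obtain ⟨E, hE, hPE, hQE⟩ : ∃ E, MeasurableSet E ∧ 1 - ε / 4 < P.real E ∧ Q.real E < ε / 4 := by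
    have h1 : 1 - ε / 4 < tvDist P Q := by rw [h]; linarith
    have hne : ({r | ∃ E, MeasurableSet E ∧ r = |P.real E - Q.real E|} : Set ℝ).Nonempty :=
      ⟨_, ∅, MeasurableSet.empty, rfl⟩
    obtain ⟨r, ⟨E, hE, rfl⟩, hr⟩ := exists_lt_of_lt_csSup hne h1
    have b1 : 0 ≤ P.real E := measureReal_nonneg
    have b2 : 0 ≤ Q.real E := measureReal_nonneg
    have b3 : P.real E ≤ 1 := measureReal_le_one
    have b4 : Q.real E ≤ 1 := measureReal_le_one
    rcases le_total 0 (P.real E - Q.real E) with h2 | h2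
    · rw [abs_of_nonneg h2] at hr
      exact ⟨E, hE, by linarith, by linarith⟩
    · rw [abs_of_nonpos h2] at hr
      refine ⟨Eᶜ, hE.compl, ?_, ?_⟩
      · rw [measureReal_compl hE, probReal_univ]; linarith
      · rw [measureReal_compl hE, probReal_univ]; linarith
  -- approximate by a cylinder
  obtain ⟨C, hC, hCE⟩ := exists_measure_symmDiff_lt_of_generateFrom_isSetRing (μ := P + Q)
    (C := measurableCylinders (fun _ : ℕ => L)) isSetRing_measurableCylinders
    ⟨{Set.univ}, Set.countable_singleton _, by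
      rw [Set.singleton_subset_iff]
      exact univ_mem_measurableCylinders _, by simp⟩
    (generateFrom_measurableCylinders).symm hE (ε := ENNReal.ofReal (ε / 4))
    (ENNReal.ofReal_pos.mpr (by linarith))
  have hCm : MeasurableSet C := MeasurableSet.of_mem_measurableCylinders hC
  rw [measurableCylinders_nat] at hC
  simp only [Set.mem_iUnion, Set.mem_singleton_iff, exists_prop] at hC
  obtain ⟨a, Sc, -, rfl⟩ := hC
  set C : Set (ℕ → L) := cylinder (Finset.Iic a) Sc with hCdef
  let F : Finset (Fin (a + 1) → L) := Finset.univ.filter fun u =>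
    (fun i : Finset.Iic a => u ⟨i.1, Nat.lt_succ_of_le (Finset.mem_Iic.mp i.2)⟩) ∈ Sc
  have hCF : {x : ℕ → L | (fun i : Fin (a + 1) => x i) ∈ F} = C := by
    ext x
    simp only [F, Finset.mem_filter, Finset.mem_univ, true_and, Set.mem_ofPred_eq]
    rfl
  -- compare the measures
  have hreal : (P + Q).real (symmDiff C E) < ε / 4 := by
    rw [measureReal_def]
    exact (ENNReal.toReal_lt_of_lt_ofReal hCE)
  have hadd : (P + Q).real (symmDiff C E) = P.real (symmDiff C E) + Q.real (symmDiff C E) :=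
    measureReal_add_apply
  have hP1 : P.real E ≤ P.real C + P.real (symmDiff C E) := by
    refine (measureReal_mono (s₂ := C ∪ symmDiff C E) ?_).trans (measureReal_union_le _ _)
    intro x hx
    by_cases hxC : x ∈ C
    · exact Or.inl hxC
    · exact Or.inr (Or.inr ⟨hx, hxC⟩)
  have hQ1 : Q.real C ≤ Q.real E + Q.real (symmDiff C E) := by
    refine (measureReal_mono (s₂ := E ∪ symmDiff C E) ?_).trans (measureReal_union_le _ _)
    intro x hx
    by_cases hxE : x ∈ E
    · exact Or.inl hxE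
    · exact Or.inr (Or.inl ⟨hx, hxE⟩)
  have hnP : 0 ≤ P.real (symmDiff C E) := measureReal_nonneg
  have hnQ : 0 ≤ Q.real (symmDiff C E) := measureReal_nonneg
  refine ⟨a + 1, ?_⟩
  have hov : ov (M.mat σ) (a + 1) μ ν ≤ (1 - P.real C) + Q.real C := by
    rw [← hCF, hPdef, hQdef, labelLaw_fin M σ hμ, labelLaw_fin M σ hν, ← sum_all M σ hμ (a + 1)]
    unfold ov
    rw [← Finset.sum_filter_add_sum_filter_not Finset.univ (fun u : Fin (a + 1) → L =>
        (fun i : Finset.Iic a => u ⟨i.1, Nat.lt_succ_of_le (Finset.mem_Iic.mp i.2)⟩) ∈ Sc)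
        (fun u => min (μ ⬝ᵥ ev (M.mat σ) (List.ofFn u)) (ν ⬝ᵥ ev (M.mat σ) (List.ofFn u))),
      ← Finset.sum_filter_add_sum_filter_not Finset.univ (fun u : Fin (a + 1) → L =>
        (fun i : Finset.Iic a => u ⟨i.1, Nat.lt_succ_of_le (Finset.mem_Iic.mp i.2)⟩) ∈ Sc)
        (fun u => μ ⬝ᵥ ev (M.mat σ) (List.ofFn u))]
    have e1 : ∑ u ∈ Finset.univ.filter (fun u : Fin (a + 1) → L =>
        (fun i : Finset.Iic a => u ⟨i.1, Nat.lt_succ_of_le (Finset.mem_Iic.mp i.2)⟩) ∈ Sc),
        min (μ ⬝ᵥ ev (M.mat σ) (List.ofFn u)) (ν ⬝ᵥ ev (M.mat σ) (List.ofFn u)) ≤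
        ∑ u ∈ F, ν ⬝ᵥ ev (M.mat σ) (List.ofFn u) :=
      Finset.sum_le_sum fun u _ => min_le_right _ _
    have e2 : ∑ u ∈ Finset.univ.filter (fun u : Fin (a + 1) → L =>
        ¬ (fun i : Finset.Iic a => u ⟨i.1, Nat.lt_succ_of_le (Finset.mem_Iic.mp i.2)⟩) ∈ Sc),
        min (μ ⬝ᵥ ev (M.mat σ) (List.ofFn u)) (ν ⬝ᵥ ev (M.mat σ) (List.ofFn u)) ≤
        ∑ u ∈ Finset.univ.filter (fun u : Fin (a + 1) → L =>
        ¬ (fun i : Finset.Iic a => u ⟨i.1, Nat.lt_succ_of_le (Finset.mem_Iic.mp i.2)⟩) ∈ Sc),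
        μ ⬝ᵥ ev (M.mat σ) (List.ofFn u) :=
      Finset.sum_le_sum fun u _ => min_le_left _ _
    simp only [F] at e1 ⊢
    linarith
  linarith

end Pool.Agent.H83
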