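import Mathlib
import Pool.Agent.H83.LMDPDefs
import Pool.Agent.H83.Chain
import Pool.Agent.H83.Generic
import Pool.Agent.H83.Law

/-!
# Small witnesses for the distance-one problem
-/

namespace Pool.Agent.H83

open MeasureTheory ProbabilityTheory Matrix

set_option linter.unusedSectionVars false

section raw

variable {S A L : Type} [Fintype S] [Fintype L]

/-- The transition matrices of the chain obtained by normalising the weights `y`. -/
noncomputable def rawMat (M : LMDP S A L) (y : S → A → ℝ) : L → Matrix S S ℝ :=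
  fun ℓ => Matrix.of fun s t =>
    ∑ a ∈ M.enabled s, y s a / (∑ a' ∈ M.enabled s, y s a') * (M.prob s a (ℓ, t) : ℝ)

/-- Admissible weights. -/
structure IsWeight (M : LMDP S A L) (y : S → A → ℝ) : Prop where
  nonneg : ∀ s a, 0 ≤ y s a
  off : ∀ s a, a ∉ M.enabled s → y s a = 0
  pos : ∀ s, 0 < ∑ a ∈ M.enabled s, y s a

/-- The strategy with probabilities proportional to the weights `y`. -/
noncomputable def IsWeight.strategy {M : LMDP S A L} {y : S → A → ℝ} (h : IsWeight M y) :
    Strategy M where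
  wt := fun s a => y s a / ∑ a' ∈ M.enabled s, y s a'
  nonneg := fun s a => div_nonneg (h.nonneg s a) (h.pos s).le
  off := fun s a ha => by rw [h.off s a ha, zero_div]
  sum_one := fun s => by rw [← Finset.sum_div, div_self (h.pos s).ne']

lemma mat_strategy {M : LMDP S A L} {y : S → A → ℝ} (h : IsWeight M y) :
    M.mat h.strategy = rawMat M y := rfl

lemma Strategy.isWeight {M : LMDP S A L} (σ : Strategy M) : IsWeight M σ.wt where
  nonneg := σ.nonneg
  off := σ.off
  pos := fun s => by rw [σ.sum_one]; exact one_pos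

lemma rawMat_wt {M : LMDP S A L} (σ : Strategy M) : rawMat M σ.wt = M.mat σ := by
  funext ℓ
  ext s t
  simp only [rawMat, LMDP.mat, LMDP.step, of_apply, σ.sum_one, div_one]

lemma continuousAt_ev_rawMat (M : LMDP S A L) {y₀ : S → A → ℝ} (h : IsWeight M y₀) (u : List L)
    (s : S) : ContinuousAt (fun y : S → A → ℝ => ev (rawMat M y) u s) y₀ := by
  induction u generalizing s with
  | nil => exact continuousAt_const
  | cons ℓ u ih =>
    simp only [ev, mulVec, dotProduct, rawMat, of_apply]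
    refine tendsto_finsetSum _ fun t _ => ?_
    refine Filter.Tendsto.mul ?_ (ih t)
    refine tendsto_finsetSum _ fun a _ => ?_
    refine Filter.Tendsto.mul ?_ tendsto_const_nhds
    refine Filter.Tendsto.div ?_ ?_ (h.pos s).ne'
    · exact (by fun_prop : Continuous fun y : S → A → ℝ => y s a).continuousAt
    · refine tendsto_finsetSum _ fun a' _ => ?_
      exact (by fun_prop : Continuous fun y : S → A → ℝ => y s a').continuousAt

/-- Two transition structures with the same positive entries have the same reachable supports. -/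
lemma supp_act_eq {T T' : L → Matrix S S ℝ} (hT : ∀ ℓ s t, 0 ≤ T ℓ s t)
    (hT' : ∀ ℓ s t, 0 ≤ T' ℓ s t) (hTT : ∀ ℓ s t, 0 < T ℓ s t ↔ 0 < T' ℓ s t) (w : List L) :
    ∀ α α' : S → ℝ, (∀ s, 0 ≤ α s) → (∀ s, 0 ≤ α' s) → supp α = supp α' →
      supp (act T w α) = supp (act T' w α') := by
  have key : ∀ (T : Matrix S S ℝ) (α : S → ℝ), (∀ s t, 0 ≤ T s t) → (∀ s, 0 ≤ α s) → ∀ t,
      0 < (α ᵥ* T) t ↔ ∃ s, 0 < α s ∧ 0 < T s t := by
    intro T α h1 h2 t
    have e : (α ᵥ* T) t = ∑ s, α s * T s t := rfl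
    rw [e, Finset.sum_pos_iff_of_nonneg fun s _ => mul_nonneg (h2 s) (h1 s t)]
    constructor
    · rintro ⟨s, -, hs⟩
      refine ⟨s, ?_, ?_⟩
      · exact lt_of_le_of_ne (h2 s) fun h => by rw [← h, zero_mul] at hs; exact lt_irrefl _ hs
      · exact lt_of_le_of_ne (h1 s t) fun h => by rw [← h, mul_zero] at hs; exact lt_irrefl _ hs
    · rintro ⟨s, h3, h4⟩
      exact ⟨s, Finset.mem_univ s, mul_pos h3 h4⟩
  induction w with
  | nil => intro α α' _ _ h; exact h
  | cons ℓ w ih =>
    intro α α' hα hα' h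
    refine ih _ _ (vecMul_nonneg (hT ℓ) hα) (vecMul_nonneg (hT' ℓ) hα') ?_
    ext t
    show 0 < (α ᵥ* T ℓ) t ↔ 0 < (α' ᵥ* T' ℓ) t
    rw [key _ _ (hT ℓ) hα, key _ _ (hT' ℓ) hα']
    refine exists_congr fun s => and_congr ?_ (hTT ℓ s t)
    have : s ∈ supp α ↔ s ∈ supp α' := by rw [h]
    exact this

lemma mat_pos_iff (M : LMDP S A L) (σ : Strategy M) (ℓ : L) (s t : S) :
    0 < M.mat σ ℓ s t ↔ ∃ a ∈ M.enabled s, 0 < σ.wt s a ∧ 0 < M.prob s a (ℓ, t) := by
  have e : M.mat σ ℓ s t = ∑ a ∈ M.enabled s, σ.wt s a * (M.prob s a (ℓ, t) : ℝ) := rfl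
  have hp : ∀ a ∈ M.enabled s, (0 : ℝ) ≤ (M.prob s a (ℓ, t) : ℝ) := fun a ha => by
    exact_mod_cast M.prob_nonneg s a ha (ℓ, t)
  rw [e, Finset.sum_pos_iff_of_nonneg fun a ha => mul_nonneg (σ.nonneg s a) (hp a ha)]
  refine exists_congr fun a => and_congr_right fun ha => ?_
  constructor
  · intro h
    refine ⟨?_, ?_⟩
    · exact lt_of_le_of_ne (σ.nonneg s a) fun h' => by rw [← h', zero_mul] at h; exact lt_irrefl _ h
    · have : (0 : ℝ) < (M.prob s a (ℓ, t) : ℝ) :=
        lt_of_le_of_ne (hp a ha) fun h' => by rw [← h', mul_zero] at h; exact lt_irrefl _ h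
      exact_mod_cast this
  · rintro ⟨h1, h2⟩
    exact mul_pos h1 (by exact_mod_cast h2)

lemma supp_act_strategy (M : LMDP S A L) (σ σ' : Strategy M)
    (h : ∀ s a, 0 < σ.wt s a ↔ 0 < σ'.wt s a) {μ : S → ℝ} (hμ : ∀ s, 0 ≤ μ s) (w : List L) :
    supp (act (M.mat σ) w μ) = supp (act (M.mat σ') w μ) := by
  refine supp_act_eq (M.isChain σ).nonneg (M.isChain σ').nonneg ?_ w μ μ hμ hμ rfl
  intro ℓ s t
  rw [mat_pos_iff, mat_pos_iff]
  exact exists_congr fun a => and_congr_right fun _ => and_congr_left fun _ => h s a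

end raw

section poly

open MvPolynomial

variable {S A L : Type} [Fintype S] [Fintype A] [Fintype L]

/-- The pairs (state, action) of positive weight. -/
abbrev Idx (y₀ : S → A → ℝ) := {p : S × A // 0 < y₀ p.1 p.2}

open Classical in
/-- Extension by zero. -/
noncomputable def extW (y₀ : S → A → ℝ) {R : Type} [Zero R] (x : Idx y₀ → R) : S → A → R :=
  fun s a => if h : 0 < y₀ s a then x ⟨(s, a), h⟩ else 0

/-- Polynomial normalising factors. -/
noncomputable def polyG (M : LMDP S A L) (y₀ : S → A → ℝ) (s : S) : MvPolynomial (Idx y₀) ℝ :=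
  ∑ a ∈ M.enabled s, extW y₀ (fun i => (X i : MvPolynomial (Idx y₀) ℝ)) s a

open Classical in
/-- Polynomial transition matrices (multiplied by all normalising factors). -/
noncomputable def polyM (M : LMDP S A L) (y₀ : S → A → ℝ) (ℓ : L) :
    Matrix S S (MvPolynomial (Idx y₀) ℝ) :=
  Matrix.of fun s t => (∏ s' ∈ Finset.univ.erase s, polyG M y₀ s') *
    ∑ a ∈ M.enabled s, extW y₀ (fun i => (X i : MvPolynomial (Idx y₀) ℝ)) s a *
      C (M.prob s a (ℓ, t) : ℝ)

/-- Polynomial word vectors. -/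
noncomputable def polyE (M : LMDP S A L) (y₀ : S → A → ℝ) : List L → S → MvPolynomial (Idx y₀) ℝ
  | [] => 1
  | ℓ :: u => polyM M y₀ ℓ *ᵥ polyE M y₀ u

lemma eval_extW (y₀ : S → A → ℝ) (x : Idx y₀ → ℝ) (s : S) (a : A) :
    eval x (extW y₀ (fun i => (X i : MvPolynomial (Idx y₀) ℝ)) s a) = extW y₀ x s a := by
  unfold extW
  split_ifs <;> simp

lemma eval_polyG (M : LMDP S A L) (y₀ : S → A → ℝ) (x : Idx y₀ → ℝ) (s : S) :
    eval x (polyG M y₀ s) = ∑ a ∈ M.enabled s, extW y₀ x s a := by
  simp [polyG, map_sum, eval_extW]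

lemma eval_polyM (M : LMDP S A L) (y₀ : S → A → ℝ) (x : Idx y₀ → ℝ)
    (hx : ∀ s, 0 < ∑ a ∈ M.enabled s, extW y₀ x s a) (ℓ : L) (s t : S) :
    eval x (polyM M y₀ ℓ s t) =
      (∏ s', ∑ a ∈ M.enabled s', extW y₀ x s' a) * rawMat M (extW y₀ x) ℓ s t := by
  classical
  simp only [polyM, rawMat, of_apply, map_mul, map_prod, map_sum, eval_polyG, eval_extW, eval_C]
  rw [← Finset.mul_prod_erase Finset.univ _ (Finset.mem_univ s), mul_comm (∑ a ∈ _, _) (∏ _ ∈ _, _),
    mul_assoc]
  congr 1
  rw [Finset.mul_sum]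
  refine Finset.sum_congr rfl fun a _ => ?_
  have := (hx s).ne'
  field_simp

lemma eval_polyE (M : LMDP S A L) (y₀ : S → A → ℝ) (x : Idx y₀ → ℝ)
    (hx : ∀ s, 0 < ∑ a ∈ M.enabled s, extW y₀ x s a) (u : List L) (s : S) :
    eval x (polyE M y₀ u s) =
      (∏ s', ∑ a ∈ M.enabled s', extW y₀ x s' a) ^ u.length * ev (rawMat M (extW y₀ x)) u s := by
  induction u generalizing s with
  | nil => simp [polyE, ev]
  | cons ℓ u ih =>
    simp only [polyE, ev, mulVec, dotProduct, map_sum, map_mul, ih, eval_polyM M y₀ x hx,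
      List.length_cons, Finset.mul_sum]
    refine Finset.sum_congr rfl fun t _ => ?_
    ring

lemma totalDegree_extW (y₀ : S → A → ℝ) (s : S) (a : A) :
    (extW y₀ (fun i => (X i : MvPolynomial (Idx y₀) ℝ)) s a).totalDegree ≤ 1 := by
  unfold extW
  split_ifs
  · simp
  · simp

lemma totalDegree_polyG (M : LMDP S A L) (y₀ : S → A → ℝ) (s : S) :
    (polyG M y₀ s).totalDegree ≤ 1 :=
  totalDegree_finsetSum_le fun a _ => totalDegree_extW y₀ s a

lemma totalDegree_polyM (M : LMDP S A L) (y₀ : S → A → ℝ) (ℓ : L) (s t : S) :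
    (polyM M y₀ ℓ s t).totalDegree ≤ Fintype.card S := by
  classical
  simp only [polyM, of_apply]
  refine (totalDegree_mul _ _).trans ?_
  have h1 : (∏ s' ∈ Finset.univ.erase s, polyG M y₀ s').totalDegree ≤ Fintype.card S - 1 := by
    refine (totalDegree_finsetProd _ _).trans ?_
    refine (Finset.sum_le_sum fun s' _ => totalDegree_polyG M y₀ s').trans ?_
    simp [Finset.card_erase_of_mem, Finset.card_univ]
  have h2 : (∑ a ∈ M.enabled s, extW y₀ (fun i => (X i : MvPolynomial (Idx y₀) ℝ)) s a *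
      C (M.prob s a (ℓ, t) : ℝ)).totalDegree ≤ 1 := by
    refine totalDegree_finsetSum_le fun a _ => ?_
    refine (totalDegree_mul _ _).trans ?_
    rw [totalDegree_C, add_zero]
    exact totalDegree_extW y₀ s a
  have h3 : 0 < Fintype.card S := Fintype.card_pos_iff.mpr ⟨s⟩
  omega

lemma totalDegree_polyE (M : LMDP S A L) (y₀ : S → A → ℝ) (u : List L) (s : S) :
    (polyE M y₀ u s).totalDegree ≤ Fintype.card S * u.length := by
  induction u generalizing s with
  | nil => simp [polyE]
  | cons ℓ u ih =>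
    simp only [polyE, mulVec, dotProduct, List.length_cons]
    refine totalDegree_finsetSum_le fun t _ => ?_
    refine (totalDegree_mul _ _).trans ?_
    have h1 := totalDegree_polyM M y₀ ℓ s t
    have h2 := ih t
    calc _ ≤ Fintype.card S + Fintype.card S * u.length := add_le_add h1 h2
      _ = _ := by ring

/-- Words of length at most `N`. -/
abbrev Words (L : Type) (N : ℕ) := Σ n : Fin (N + 1), (Fin n → L)

/-- The word as a list. -/
def Words.toList {L : Type} {N : ℕ} (u : Words L N) : List L := List.ofFn u.2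

lemma Words.length_toList {N : ℕ} (u : Words L N) : u.toList.length ≤ N := by
  unfold Words.toList
  rw [List.length_ofFn]
  exact Nat.lt_succ_iff.mp u.1.2

lemma evSpanLE_eq (T : L → Matrix S S ℝ) (N : ℕ) :
    evSpanLE T N = Submodule.span ℝ (Set.range fun u : Words L N => ev T u.toList) := by
  unfold evSpanLE
  congr 1
  ext v
  constructor
  · rintro ⟨u, hu, rfl⟩
    have hu' : u.length < N + 1 := Nat.lt_succ_of_le hu
    exact ⟨⟨⟨u.length, hu'⟩, fun i => u.get i⟩, by simp [Words.toList]⟩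
  · rintro ⟨u, rfl⟩
    exact ⟨u.toList, u.length_toList, rfl⟩

/-- Solvability of the polynomial system at a point is separation at that point. -/
lemma solvable_iff (M : LMDP S A L) (y₀ : S → A → ℝ) (x : Idx y₀ → ℝ)
    (hx : ∀ s, 0 < ∑ a ∈ M.enabled s, extW y₀ x s a) (B : Set S) (b : B → ℝ) :
    (∃ c : Words L (Fintype.card S) → ℝ,
      ((Matrix.of fun (s : B) (u : Words L (Fintype.card S)) =>
        polyE M y₀ u.toList s).map (eval x)) *ᵥ c = b) ↔
    ∃ v ∈ evSpan (rawMat M (extW y₀ x)), ∀ s : B, v s = b s := by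
  set PP := ∏ s', ∑ a ∈ M.enabled s', extW y₀ x s' a with hPP
  have hPP0 : 0 < PP := Finset.prod_pos fun s _ => hx s
  rw [evSpan_eq, evSpanLE_eq]
  constructor
  · rintro ⟨c, hc⟩
    refine ⟨∑ u : Words L (Fintype.card S), (c u * PP ^ u.toList.length) •
      ev (rawMat M (extW y₀ x)) u.toList, ?_, ?_⟩
    · exact Submodule.sum_mem _ fun u _ => Submodule.smul_mem _ _ (Submodule.subset_span ⟨u, rfl⟩)
    · intro s
      rw [← hc]
      simp only [mulVec, dotProduct, map_apply, of_apply, eval_polyE M y₀ x hx, Finset.sum_apply,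
        Pi.smul_apply, smul_eq_mul]
      refine Finset.sum_congr rfl fun u _ => ?_
      rw [← hPP]
      ring
  · rintro ⟨v, hv, hvb⟩
    rw [Submodule.mem_span_range_iff_exists_fun] at hv
    obtain ⟨c, rfl⟩ := hv
    refine ⟨fun u => c u / PP ^ u.toList.length, ?_⟩
    ext s
    rw [← hvb s]
    simp only [mulVec, dotProduct, map_apply, of_apply, eval_polyE M y₀ x hx, Finset.sum_apply,
      Pi.smul_apply, smul_eq_mul]
    refine Finset.sum_congr rfl fun u _ => ?_
    rw [← hPP]
    have := (pow_pos hPP0 u.toList.length).ne'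
    field_simp

lemma extW_pos_iff (y₀ : S → A → ℝ) (x : Idx y₀ → ℝ) (hx : ∀ i, 0 < x i) (s : S) (a : A) :
    0 < extW y₀ x s a ↔ 0 < y₀ s a := by
  unfold extW
  split_ifs with h
  · exact ⟨fun _ => h, fun _ => hx _⟩
  · exact ⟨fun h' => absurd h' (lt_irrefl _), fun h' => absurd h' h⟩

lemma extW_isWeight (M : LMDP S A L) (σ : Strategy M) (x : Idx σ.wt → ℝ) (hx : ∀ i, 0 < x i) :
    IsWeight M (extW σ.wt x) where
  nonneg := fun s a => by
    unfold extW
    split_ifs with h
    · exact (hx _).le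
    · exact le_rfl
  off := fun s a ha => by
    unfold extW
    rw [dif_neg]
    rw [σ.off s a ha]
    exact lt_irrefl _
  pos := fun s => by
    have h1 : 0 < ∑ a ∈ M.enabled s, σ.wt s a := by rw [σ.sum_one]; exact one_pos
    rw [Finset.sum_pos_iff_of_nonneg fun a _ => σ.nonneg s a] at h1
    obtain ⟨a, ha, hpos⟩ := h1
    refine Finset.sum_pos' (fun a' _ => ?_) ⟨a, ha, ?_⟩
    · unfold extW
      split_ifs with h
      · exact (hx _).le
      · exact le_rfl
    · exact (extW_pos_iff σ.wt x hx s a).mpr hpos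

lemma strategy_pos_iff {M : LMDP S A L} {y : S → A → ℝ} (h : IsWeight M y) (s : S) (a : A) :
    0 < h.strategy.wt s a ↔ 0 < y s a := by
  show 0 < y s a / _ ↔ _
  rw [div_pos_iff_of_pos_right (h.pos s)]

variable [MeasurableSpace S] [DiscreteMeasurableSpace S]
  [MeasurableSpace L] [DiscreteMeasurableSpace L]

/-- **Small witnesses.** If a memoryless strategy achieves total variation distance one, then so does
a memoryless strategy with the same support whose probabilities are proportional to positive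
integers of size at most `4 ^ |S| * |S| ^ 3 + 1`. -/
theorem small_witness (M : LMDP S A L) {μ ν : S → ℝ} (hμ : IsDist μ) (hν : IsDist ν)
    (σ : Strategy M) (h : tvDist (M.labelLaw σ μ) (M.labelLaw σ ν) = 1) :
    ∃ (w : S → A → ℕ) (σ' : Strategy M),
      (∀ s a, w s a ≤ 4 ^ Fintype.card S * Fintype.card S ^ 3 + 1) ∧
      (∀ s a, 0 < w s a ↔ 0 < σ.wt s a) ∧
      (∀ s a, σ'.wt s a = w s a / ∑ a' ∈ M.enabled s, (w s a' : ℝ)) ∧
      tvDist (M.labelLaw σ' μ) (M.labelLaw σ' ν) = 1 := by
  classical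
  set N := Fintype.card S with hN
  set y₀ := σ.wt with hy₀
  have hov := ov_of_tvDist_eq_one M σ hμ hν h
  have hsep := fun w => exists_sep (M.isChain σ) hμ.nonneg hν.nonneg hov w
  -- strategies near `σ` with the same support
  let pr : (w : List L) → Set S × Set S := fun w =>
    (supp (act (M.mat σ) w μ), supp (act (M.mat σ) w ν))
  have hsuppx : ∀ (x : Idx y₀ → ℝ) (hx : ∀ i, 0 < x i) (w : List L),
      (supp (act (rawMat M (extW y₀ x)) w μ), supp (act (rawMat M (extW y₀ x)) w ν)) = pr w := by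
    intro x hx w
    have hw := extW_isWeight M σ x hx
    have hs : ∀ s a, 0 < σ.wt s a ↔ 0 < hw.strategy.wt s a := by
      intro s a
      rw [strategy_pos_iff hw, extW_pos_iff σ.wt x hx]
    have h1 := supp_act_strategy M σ hw.strategy hs hμ.nonneg w
    have h2 := supp_act_strategy M σ hw.strategy hs hν.nonneg w
    rw [mat_strategy] at h1 h2
    rw [← h1, ← h2]
  -- approximate separation persists
  have hnear : ∀ᶠ y in nhds y₀, ∀ p : Set S × Set S, p ∈ Set.range pr →
      ∃ v ∈ evSpan (rawMat M y), (∀ s ∈ p.1, 1 / 2 < v s) ∧ (∀ s ∈ p.2, v s < 1 / 2) := by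
    rw [Filter.eventually_all]
    intro p
    by_cases hp : p ∈ Set.range pr
    swap
    · exact Filter.Eventually.of_forall fun y hp' => absurd hp' hp
    obtain ⟨w, rfl⟩ := hp
    obtain ⟨v, hv, hv1, hv2⟩ := hsep w
    rw [evSpan_eq, evSpanLE_eq, Submodule.mem_span_range_iff_exists_fun] at hv
    obtain ⟨c, hc⟩ := hv
    have hcont : ∀ s, ContinuousAt (fun y : S → A → ℝ =>
        (∑ u : Words L (Fintype.card S), c u • ev (rawMat M y) u.toList) s) y₀ := by
      intro s
      simp only [Finset.sum_apply, Pi.smul_apply, smul_eq_mul]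
      refine tendsto_finsetSum _ fun u _ => ?_
      exact (continuousAt_ev_rawMat M σ.isWeight u.toList s).const_mul (c u)
    have hval : ∀ s, (∑ u : Words L (Fintype.card S), c u • ev (rawMat M y₀) u.toList) s = v s := by
      intro s
      rw [← hc, hy₀, rawMat_wt]
    have e1 : ∀ᶠ y in nhds y₀, ∀ s, s ∈ (pr w).1 →
        1 / 2 < (∑ u : Words L (Fintype.card S), c u • ev (rawMat M y) u.toList) s := by
      rw [Filter.eventually_all]
      intro s
      by_cases hs : s ∈ (pr w).1
      · have h1 : (1 / 2 : ℝ) < (∑ u : Words L (Fintype.card S),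
            c u • ev (rawMat M y₀) u.toList) s := by
          rw [hval s, hv1 s hs]; norm_num
        exact ((hcont s).eventually (lt_mem_nhds h1)).mono fun y hy _ => hy
      · exact Filter.Eventually.of_forall fun y hs' => absurd hs' hs
    have e2 : ∀ᶠ y in nhds y₀, ∀ s, s ∈ (pr w).2 →
        (∑ u : Words L (Fintype.card S), c u • ev (rawMat M y) u.toList) s < 1 / 2 := by
      rw [Filter.eventually_all]
      intro s
      by_cases hs : s ∈ (pr w).2
      · have h1 : (∑ u : Words L (Fintype.card S),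
            c u • ev (rawMat M y₀) u.toList) s < (1 / 2 : ℝ) := by
          rw [hval s, hv2 s hs]; norm_num
        exact ((hcont s).eventually (gt_mem_nhds h1)).mono fun y hy _ => hy
      · exact Filter.Eventually.of_forall fun y hs' => absurd hs' hs
    filter_upwards [e1, e2] with y h1 h2 _
    exact ⟨_, Submodule.sum_mem _ fun u _ => Submodule.smul_mem _ _
      (Submodule.subset_span ⟨u.toList, rfl⟩), h1, h2⟩
  -- pull back to the positive weights
  let x₀ : Idx y₀ → ℝ := fun i => y₀ i.1.1 i.1.2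
  have hx₀ : extW y₀ x₀ = y₀ := by
    funext s a
    unfold extW
    split_ifs with h
    · rfl
    · exact (le_antisymm (not_lt.mp h) (σ.nonneg s a)).symm
  have hcontext : Continuous (fun x : Idx y₀ → ℝ => extW y₀ x) := by
    refine continuous_pi fun s => continuous_pi fun a => ?_
    unfold extW
    split_ifs with h
    · exact continuous_apply _
    · exact continuous_const
  have hnear' : ∀ᶠ x in nhds x₀, (∀ i, 0 < x i) ∧ ∀ p : Set S × Set S, p ∈ Set.range pr →
      ∃ v ∈ evSpan (rawMat M (extW y₀ x)), (∀ s ∈ p.1, 1 / 2 < v s) ∧ (∀ s ∈ p.2, v s < 1 / 2) := by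
    refine Filter.Eventually.and ?_ ?_
    · rw [Filter.eventually_all]
      intro i
      exact (continuous_apply i).continuousAt.eventually (lt_mem_nhds i.2)
    · have : Filter.Tendsto (fun x : Idx y₀ → ℝ => extW y₀ x) (nhds x₀) (nhds y₀) := by
        have := hcontext.continuousAt (x := x₀)
        unfold ContinuousAt at this
        simp only [hx₀] at this
        exact this
      exact this.eventually hnear
  obtain ⟨r, hr, hball⟩ := Metric.eventually_nhds_iff_ball.mp hnear'
  let box : Idx y₀ → Set ℝ := fun i => Metric.ball (x₀ i) r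
  have hbox : ∀ x ∈ Set.pi Set.univ box, x ∈ Metric.ball x₀ r := by
    intro x hx
    rw [ball_pi x₀ hr]
    exact hx
  have hboxinf : ∀ i, (box i).Infinite := by
    intro i
    simp only [box, Real.ball_eq_Ioo]
    exact Set.Ioo_infinite (by linarith)
  -- exact separation on the box
  have hexact : ∀ x ∈ Set.pi Set.univ box, ∀ w, ∃ v ∈ evSpan (rawMat M (extW y₀ x)),
      (∀ s ∈ (pr w).1, v s = 1) ∧ (∀ s ∈ (pr w).2, v s = 0) := by
    intro x hx
    obtain ⟨hpos, hgood⟩ := hball x (hbox x hx)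
    have hw := extW_isWeight M σ x hpos
    have hch : IsChain (rawMat M (extW y₀ x)) := by
      rw [← mat_strategy hw]; exact M.isChain _
    have hov' := ov_tendsto_zero hch hμ.nonneg hν.nonneg (by
      intro w
      obtain ⟨v, hv, h1, h2⟩ := hgood (pr w) ⟨w, rfl⟩
      rw [← hsuppx x hpos w] at h1 h2
      exact ⟨v, hv, 1 / 2, h1, h2⟩)
    intro w
    obtain ⟨v, hv, h1, h2⟩ := exists_sep hch hμ.nonneg hν.nonneg hov' w
    refine ⟨v, hv, ?_, ?_⟩
    · intro s hs
      rw [← hsuppx x hpos w] at hs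
      exact h1 s hs
    · intro s hs
      rw [← hsuppx x hpos w] at hs
      exact h2 s hs
  -- generic solvability for each reachable pair
  have hD : ∀ p : Set S × Set S, ∃ D : MvPolynomial (Idx y₀) ℝ, D ≠ 0 ∧
      D.totalDegree ≤ N * (N * N) ∧ (p ∈ Set.range pr → ∀ x : Idx y₀ → ℝ, (∀ i, 0 < x i) →
        eval x D ≠ 0 → ∃ v ∈ evSpan (rawMat M (extW y₀ x)),
          (∀ s ∈ p.1, v s = 1) ∧ (∀ s ∈ p.2, v s = 0)) := by
    intro p
    by_cases hp : p ∈ Set.range pr
    swap
    · exact ⟨1, one_ne_zero, by simp, fun h => absurd h hp⟩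
    obtain ⟨w, rfl⟩ := hp
    let B : Set S := (pr w).1 ∪ (pr w).2
    let b : B → ℝ := fun s => if (s : S) ∈ (pr w).1 then 1 else 0
    have hdisj : ∀ s ∈ (pr w).2, s ∉ (pr w).1 := by
      intro s hs hs'
      obtain ⟨v, -, h1, h2⟩ := hsep w
      have := (h1 s hs').symm.trans (h2 s hs)
      exact one_ne_zero this
    have hbiff : ∀ (V : Submodule ℝ (S → ℝ)), (∃ v ∈ V, ∀ s : B, v s = b s) ↔
        (∃ v ∈ V, (∀ s ∈ (pr w).1, v s = 1) ∧ (∀ s ∈ (pr w).2, v s = 0)) := by
      intro V
      refine exists_congr fun v => and_congr_right fun _ => ?_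
      constructor
      · intro h
        refine ⟨fun s hs => ?_, fun s hs => ?_⟩
        · have := h ⟨s, Or.inl hs⟩
          simpa [b, hs] using this
        · have := h ⟨s, Or.inr hs⟩
          simpa [b, hdisj s hs] using this
      · rintro ⟨h1, h2⟩ ⟨s, hs⟩
        by_cases hs1 : s ∈ (pr w).1
        · simp [b, hs1, h1 s hs1]
        · have hs2 : s ∈ (pr w).2 := hs.resolve_left hs1
          simp [b, hs1, h2 s hs2]
    obtain ⟨D, hD0, hDdeg, hD⟩ := generic_solvable
      (Matrix.of fun (s : B) (u : Words L (Fintype.card S)) => polyE M y₀ u.toList s) b box hboxinf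
      (N * N) (fun i j => (totalDegree_polyE M y₀ _ _).trans
        (Nat.mul_le_mul_left _ j.length_toList)) (by
        intro x hx
        have hpos := (hball x (hbox x hx)).1
        rw [solvable_iff M y₀ x (extW_isWeight M σ x hpos).pos B b, hbiff]
        exact hexact x hx w)
    refine ⟨D, hD0, hDdeg.trans ?_, ?_⟩
    · refine Nat.mul_le_mul_right _ ?_
      rw [hN]
      exact Fintype.card_le_of_injective _ (Subtype.val_injective (p := fun s => s ∈ B))
    · intro _ x hpos hx
      have := hD x hx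
      rw [solvable_iff M y₀ x (extW_isWeight M σ x hpos).pos B b, hbiff] at this
      exact this
  choose D hD0 hDdeg hDsol using hD
  -- multiply everything and find a small point
  set Q := ∏ p : Set S × Set S, D p with hQ
  have hQ0 : Q ≠ 0 := Finset.prod_ne_zero_iff.mpr fun p _ => hD0 p
  have hQdeg : Q.totalDegree ≤ 4 ^ N * N ^ 3 := by
    refine (totalDegree_finsetProd _ _).trans ?_
    refine (Finset.sum_le_sum fun p _ => hDdeg p).trans ?_
    rw [Finset.sum_const, smul_eq_mul, Finset.card_univ, Fintype.card_prod, Fintype.card_set]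
    rw [← hN, ← mul_pow]
    apply le_of_eq
    ring
  set H := 4 ^ N * N ^ 3 + 1 with hH
  obtain ⟨z, hz, hzQ⟩ : ∃ z : Idx y₀ → ℝ, (∀ i, z i ∈ (Finset.Icc 1 H).image (Nat.cast : ℕ → ℝ)) ∧
      eval z Q ≠ 0 := by
    by_contra hcon
    push Not at hcon
    refine hQ0 (eq_zero_of_eval_zero_at_prod_finset Q
      (fun _ => (Finset.Icc 1 H).image (Nat.cast : ℕ → ℝ)) (fun i => ?_) fun x hx => hcon x hx)
    rw [Finset.card_image_of_injective _ Nat.cast_injective, Nat.card_Icc]
    have := degreeOf_le_totalDegree Q i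
    omega
  have hz' : ∀ i, ∃ m : ℕ, (1 ≤ m ∧ m ≤ H) ∧ (m : ℝ) = z i := by
    intro i
    obtain ⟨m, hm, hmz⟩ := Finset.mem_image.mp (hz i)
    exact ⟨m, Finset.mem_Icc.mp hm, hmz⟩
  choose m hm hmz using hz'
  have hzpos : ∀ i, 0 < z i := by
    intro i
    rw [← hmz i]
    exact_mod_cast (hm i).1
  have hw := extW_isWeight M σ z hzpos
  have hcast : ∀ s a, extW y₀ z s a = ((extW y₀ m s a : ℕ) : ℝ) := by
    intro s a
    unfold extW
    split_ifs with h
    · exact (hmz _).symm
    · simp
  refine ⟨extW y₀ m, hw.strategy, ?_, ?_, ?_, ?_⟩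
  · intro s a
    unfold extW
    split_ifs with h
    · exact (hm _).2
    · exact Nat.zero_le _
  · intro s a
    rw [← extW_pos_iff σ.wt z hzpos s a, hcast]
    exact Nat.cast_pos.symm
  · intro s a
    show extW y₀ z s a / _ = _
    simp only [← hcast]
    rfl
  · refine tvDist_eq_one_of_ov M _ hμ hν ?_
    rw [mat_strategy]
    have hch : IsChain (rawMat M (extW y₀ z)) := by
      rw [← mat_strategy hw]; exact M.isChain _
    refine ov_tendsto_zero hch hμ.nonneg hν.nonneg ?_
    intro w
    have hDz : eval z (D (pr w)) ≠ 0 := by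
      rw [hQ, map_prod] at hzQ
      exact Finset.prod_ne_zero_iff.mp hzQ (pr w) (Finset.mem_univ _)
    obtain ⟨v, hv, h1, h2⟩ := hDsol (pr w) ⟨w, rfl⟩ z hzpos hDz
    have e := hsuppx z hzpos w
    refine ⟨v, hv, 1 / 2, ?_, ?_⟩
    · intro s hs
      have : s ∈ (pr w).1 := by rw [← e]; exact hs
      rw [h1 s this]; norm_num
    · intro s hs
      have : s ∈ (pr w).2 := by rw [← e]; exact hs
      rw [h2 s this]; norm_num

end poly

end Pool.Agent.H83
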